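import Pool.Agent.Work.MP_d5a5f5_ag.Stmts

/-!
PRIM: primitive coordinates in a unique factorization domain whose only unit is one.
-/

namespace Pool.Agent.Work.MP_d5a5f5_ag

open MvPolynomial

namespace ItemPRIM

/-- A quadratic map without zeros preserves primitive vectors. -/
theorem prim_of_prim {R : Type} [CommRing R] [IsDomain R] [UniqueFactorizationMonoid R]
    [NormalizedGCDMonoid R] (q : Fin 3 → R) (x : Fin 3 → R)
    (hprime : ∀ p : R, Prime p → (∀ i, p ∣ q i) → ∀ i, p ∣ x i) (hq : q ≠ 0)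
    (hx : Finset.univ.gcd x = 1) : IsUnit (Finset.univ.gcd q) := by
  by_contra hcon
  have h0 : Finset.univ.gcd q ≠ 0 := by
    intro h
    apply hq
    funext i
    exact Finset.gcd_eq_zero_iff.1 h i (Finset.mem_univ i)
  obtain ⟨p, hp, hpd⟩ := WfDvdMonoid.exists_irreducible_factor hcon h0
  have hpp : Prime p := UniqueFactorizationMonoid.irreducible_iff_prime.1 hp
  have h1 : ∀ i, p ∣ x i := hprime p hpp fun i =>
    hpd.trans (Finset.gcd_dvd (Finset.mem_univ i))
  have h2 : p ∣ Finset.univ.gcd x := Finset.dvd_gcd fun i _ => h1 i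
  rw [hx] at h2
  exact hpp.not_isUnit (isUnit_of_dvd_one h2)

/-- Parallel primitive vectors are associated. -/
theorem dvd_of_parallel {R : Type} [CommRing R] [IsDomain R] [NormalizedGCDMonoid R]
    (q q' : Fin 3 → R) (hp : ∀ i j, q i * q' j = q j * q' i)
    (hq : IsUnit (Finset.univ.gcd q)) (i : Fin 3) : q i ∣ q' i := by
  have h1 : ∀ j, q i ∣ q j * q' i := fun j => ⟨q' j, (hp i j).symm⟩
  have h2 : q i ∣ Finset.univ.gcd (fun j => q j * q' i) := Finset.dvd_gcd fun j _ => h1 j
  have h3 : q i ∣ Finset.univ.gcd q * q' i :=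
    h2.trans (Finset.gcd_mul_right' Finset.univ q (q' i)).dvd
  exact (hq.dvd_mul_left).1 h3

theorem gen (hNZ : claimNZ) {R : Type} [CommRing R] [IsDomain R] [UniqueFactorizationMonoid R]
    (hu : ∀ u : R, IsUnit u → u = 1) (d e : R) (x y : Fin 3 → R) (hx : x ≠ 0) (hy : y ≠ 0)
    (hp : ∀ i j, al d e x i * be y j = al d e x j * be y i) :
    ∃ (x' y' : Fin 3 → R) (a b : R),
      a ≠ 0 ∧ b ≠ 0 ∧ x = a • x' ∧ y = b • y' ∧ al d e x' = be y' := by
  classical
  let _ : StrongNormalizationMonoid R := UniqueFactorizationMonoid.strongNormalizationMonoid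
  let _ : NormalizedGCDMonoid R := UniqueFactorizationMonoid.toNormalizedGCDMonoid R
  obtain ⟨x', hx', hgx⟩ := Finset.extract_gcd x (Finset.univ_nonempty (α := Fin 3))
  obtain ⟨y', hy', hgy⟩ := Finset.extract_gcd y (Finset.univ_nonempty (α := Fin 3))
  set a := Finset.univ.gcd x with ha
  set b := Finset.univ.gcd y with hb
  have hxa : x = a • x' := by
    funext i; exact hx' i (Finset.mem_univ i)
  have hyb : y = b • y' := by
    funext i; exact hy' i (Finset.mem_univ i)
  have ha0 : a ≠ 0 := by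
    intro h; apply hx; rw [hxa, h, zero_smul]
  have hb0 : b ≠ 0 := by
    intro h; apply hy; rw [hyb, h, zero_smul]
  have hx0 : x' ≠ 0 := by
    intro h; apply hx; rw [hxa, h, smul_zero]
  have hy0 : y' ≠ 0 := by
    intro h; apply hy; rw [hyb, h, smul_zero]
  refine ⟨x', y', a, b, ha0, hb0, hxa, hyb, ?_⟩
  -- the scaled relation
  have hala : ∀ i, al d e x i = a ^ 2 * al d e x' i := by
    intro i
    rw [hxa]
    fin_cases i
    · simp [al]; ring
    · simp [al]; ring
    · simp [al]; ring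
  have hbeb : ∀ i, be y i = b ^ 2 * be y' i := by
    intro i
    rw [hyb]
    fin_cases i
    · simp [be]; ring
    · simp [be]; ring
    · simp [be]; ring
  have hp' : ∀ i j, al d e x' i * be y' j = al d e x' j * be y' i := by
    intro i j
    have h1 := hp i j
    rw [hala, hala, hbeb, hbeb] at h1
    have h2 : a ^ 2 * b ^ 2 * (al d e x' i * be y' j) =
        a ^ 2 * b ^ 2 * (al d e x' j * be y' i) := by linear_combination h1
    exact mul_left_cancel₀ (mul_ne_zero (pow_ne_zero _ ha0) (pow_ne_zero _ hb0)) h2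
  -- reduction modulo a prime
  have hredx : ∀ p : R, Prime p → (∀ i, p ∣ al d e x' i) → ∀ i, p ∣ x' i := by
    intro p hpp hdvd i
    have hI : (Ideal.span {p}).IsPrime := (Ideal.span_singleton_prime hpp.ne_zero).2 hpp
    have h1 := (hNZ (R ⧸ Ideal.span {p}) (Ideal.Quotient.mk _ d) (Ideal.Quotient.mk _ e)).1
      (fun j => Ideal.Quotient.mk _ (x' j)) (by
        funext j
        have h2 : Ideal.Quotient.mk (Ideal.span {p}) (al d e x' j) = 0 :=
          Ideal.Quotient.eq_zero_iff_dvd _ _ |>.2 (hdvd j)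
        rw [Pi.zero_apply, ← h2]
        fin_cases j <;> simp [al])
    have h3 := congrFun h1 i
    exact (Ideal.Quotient.eq_zero_iff_dvd _ _).1 h3
  have hredy : ∀ p : R, Prime p → (∀ i, p ∣ be y' i) → ∀ i, p ∣ y' i := by
    intro p hpp hdvd i
    have hI : (Ideal.span {p}).IsPrime := (Ideal.span_singleton_prime hpp.ne_zero).2 hpp
    have h1 := (hNZ (R ⧸ Ideal.span {p}) (Ideal.Quotient.mk _ d) (Ideal.Quotient.mk _ e)).2
      (fun j => Ideal.Quotient.mk _ (y' j)) (by
        funext j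
        have h2 : Ideal.Quotient.mk (Ideal.span {p}) (be y' j) = 0 :=
          Ideal.Quotient.eq_zero_iff_dvd _ _ |>.2 (hdvd j)
        rw [Pi.zero_apply, ← h2]
        fin_cases j <;> simp [be])
    have h3 := congrFun h1 i
    exact (Ideal.Quotient.eq_zero_iff_dvd _ _).1 h3
  have hA : IsUnit (Finset.univ.gcd (al d e x')) :=
    prim_of_prim _ x' hredx (fun h => hx0 ((hNZ R d e).1 x' h)) hgx
  have hB : IsUnit (Finset.univ.gcd (be y')) :=
    prim_of_prim _ y' hredy (fun h => hy0 ((hNZ R d e).2 y' h)) hgy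
  funext i
  have h1 : al d e x' i ∣ be y' i := dvd_of_parallel _ _ hp' hA i
  have h2 : be y' i ∣ al d e x' i :=
    dvd_of_parallel _ _ (fun i j => by linear_combination hp' j i) hB i
  obtain ⟨u, hu'⟩ := associated_of_dvd_dvd h1 h2
  rw [← hu', hu u u.isUnit, mul_one]

theorem unit_eq_one (n : ℕ) (u : MvPolynomial (Fin n) A2) (hu : IsUnit u) : u = 1 := by
  obtain ⟨r, hr, rfl⟩ := MvPolynomial.isUnit_iff_eq_C_of_isReduced.1 hu
  obtain ⟨s, hs, rfl⟩ := Polynomial.isUnit_iff.1 hr
  obtain ⟨t, ht, rfl⟩ := Polynomial.isUnit_iff.1 hs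
  have : t = 1 := by
    have h : ∀ t : ZMod 2, t ≠ 0 → t = 1 := by decide
    exact h t ht.ne_zero
  rw [this]
  simp

end ItemPRIM

theorem prfPRIM (hNZ : claimNZ) : claimPRIM := by
  intro n x y hx hy hp
  exact ItemPRIM.gen hNZ (ItemPRIM.unit_eq_one n) _ _ x y hx hy hp

end Pool.Agent.Work.MP_d5a5f5_ag
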