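import Pool.Agent.Work.MP_d5a5f5_ag.Stmts

/-!
RK: the Jacobian matrix has rank `6` at every point.
-/

namespace Pool.Agent.Work.MP_d5a5f5_ag

open MvPolynomial

namespace RK

section

variable {K : Type} [Field K]

/-- The directional derivative at `z` in the direction `W`. -/
noncomputable def D (z W : Fin 3 × Fin 3 → K) (P : MvPolynomial (Fin 3 × Fin 3) K) : K :=
  ∑ s, aeval z (pderiv s P) * W s

theorem D_sub (z W : Fin 3 × Fin 3 → K) (P Q : MvPolynomial (Fin 3 × Fin 3) K) :
    D z W (P - Q) = D z W P - D z W Q := by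
  unfold D
  rw [← Finset.sum_sub_distrib]
  apply Finset.sum_congr rfl
  intro s _
  rw [map_sub, map_sub, sub_mul]

theorem D_sum {ι : Type} (t : Finset ι) (z W : Fin 3 × Fin 3 → K)
    (P : ι → MvPolynomial (Fin 3 × Fin 3) K) : D z W (∑ i ∈ t, P i) = ∑ i ∈ t, D z W (P i) := by
  unfold D
  rw [Finset.sum_comm]
  apply Finset.sum_congr rfl
  intro s _
  rw [map_sum, map_sum, Finset.sum_mul]

theorem D_C_mul (z W : Fin 3 × Fin 3 → K) (c : K) (P : MvPolynomial (Fin 3 × Fin 3) K) :
    D z W (C c * P) = c * D z W P := by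
  unfold D
  rw [Finset.mul_sum]
  apply Finset.sum_congr rfl
  intro s _
  rw [pderiv_C_mul, map_mul, aeval_C, mul_assoc]
  rfl

theorem D_X (z W : Fin 3 × Fin 3 → K) (s : Fin 3 × Fin 3) : D z W (X s) = W s := by
  unfold D
  rw [Finset.sum_eq_single s]
  · rw [pderiv_X_self, map_one, one_mul]
  · intro t _ hts
    rw [pderiv_X_of_ne (Ne.symm hts), map_zero, zero_mul]
  · intro h
    exact absurd (Finset.mem_univ s) h

theorem D_mul (z W : Fin 3 × Fin 3 → K) (P Q : MvPolynomial (Fin 3 × Fin 3) K) :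
    D z W (P * Q) = aeval z P * D z W Q + aeval z Q * D z W P := by
  unfold D
  rw [Finset.mul_sum, Finset.mul_sum, ← Finset.sum_add_distrib]
  apply Finset.sum_congr rfl
  intro s _
  rw [pderiv_mul, map_add, map_mul, map_mul]
  ring

theorem D_XX (z W : Fin 3 × Fin 3 → K) (s t : Fin 3 × Fin 3) :
    D z W (X s * X t) = z s * W t + W s * z t := by
  rw [D_mul, D_X, D_X, aeval_X, aeval_X]
  ring

theorem D_AB (d e : K) (z W : Fin 3 × Fin 3 → K) (i j : Fin 3) :
    D z W (AB d e i j) = ∑ p, ∑ q, ∑ u, ∑ v, (ca d e i p q * cb j u v) *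
      (z (p, u) * W (q, v) + W (p, u) * z (q, v)) := by
  unfold AB
  simp only [D_sum, D_C_mul, D_XX]

/-- The differential of `α`. -/
def dal (x a : Fin 3 → K) : Fin 3 → K :=
  ![x 1 * a 2 + x 2 * a 1, x 0 * a 2 + x 2 * a 0, 0]

/-- The differential of `β`. -/
def dbe (y b : Fin 3 → K) : Fin 3 → K :=
  ![0, y 0 * b 2 + y 2 * b 0, y 0 * b 1 + y 1 * b 0]

/-- The tangent vector. -/
def tv (x y a b : Fin 3 → K) : Fin 3 × Fin 3 → K := fun s => a s.1 * y s.2 + x s.1 * b s.2

/-- The differential of `α` in any characteristic. -/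
def dalG (d e : K) (x a : Fin 3 → K) : Fin 3 → K :=
  ![2 * (x 0 * a 0) + x 1 * a 2 + x 2 * a 1 + 2 * (d * (x 1 * a 1)) + 2 * (e * (x 2 * a 2)),
    2 * (x 1 * a 1) + x 0 * a 2 + x 2 * a 0, 2 * (x 2 * a 2)]

/-- The differential of `β` in any characteristic. -/
def dbeG (y b : Fin 3 → K) : Fin 3 → K :=
  ![2 * (y 0 * b 0), 2 * (y 1 * b 1) + y 0 * b 2 + y 2 * b 0,
    2 * (y 2 * b 2) + y 0 * b 1 + y 1 * b 0]

theorem D_AB_G (d e : K) (x y a b : Fin 3 → K) (i j : Fin 3) :
    D (tens x y) (tv x y a b) (AB d e i j) =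
      dalG d e x a i * be y j + al d e x i * dbeG y b j := by
  rw [D_AB]
  fin_cases i <;> fin_cases j <;>
    simp only [Fin.sum_univ_three, ca, cb, tens, tv, dalG, dbeG, al, be] <;> simp <;> ring

theorem D_AB_tv [CharP K 2] (d e : K) (x y a b : Fin 3 → K) (i j : Fin 3) :
    D (tens x y) (tv x y a b) (AB d e i j) =
      dal x a i * be y j + al d e x i * dbe y b j := by
  have h2 : (2 : K) = 0 := CharTwo.two_eq_zero
  have e1 : dalG d e x a = dal x a := by
    unfold dalG dal
    rw [h2]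
    simp
  have e2 : dbeG y b = dbe y b := by
    unfold dbeG dbe
    rw [h2]
    simp
  rw [D_AB_G, e1, e2]

/-- The Segre part. -/
def Seg (z W : Fin 3 × Fin 3 → K) : Prop := ∀ i j i' j' : Fin 3,
  z (i, j) * W (i', j') + W (i, j) * z (i', j') - (z (i, j') * W (i', j) + W (i, j') * z (i', j)) = 0

theorem mem_ker (d e : K) (z W : Fin 3 × Fin 3 → K) :
    (jac (Feq d e) z : Matrix _ _ K).mulVec W = 0 ↔
      Seg z W ∧ ∀ i j, D z W (AB d e i j) = D z W (AB d e j i) := by
  have key : ∀ i, (jac (Feq d e) z : Matrix _ _ K).mulVec W i = D z W (Feq d e i) := by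
    intro i
    rfl
  constructor
  · intro h
    constructor
    · intro i j i' j'
      have h1 := key (Sum.inl (i, j, i', j'))
      rw [h] at h1
      have h2 : Feq d e (Sum.inl (i, j, i', j')) =
        X (i, j) * X (i', j') - X (i, j') * X (i', j) := rfl
      rw [h2, D_sub, D_XX, D_XX] at h1
      exact h1.symm
    · intro i j
      have h1 := key (Sum.inr (i, j))
      rw [h] at h1
      have h2 : Feq d e (Sum.inr (i, j)) = AB d e i j - AB d e j i := rfl
      rw [h2, D_sub] at h1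
      exact sub_eq_zero.1 h1.symm
  · rintro ⟨h1, h2⟩
    funext i
    rw [key]
    rcases i with ⟨i, j, i', j'⟩ | ⟨i, j⟩
    · have h3 : Feq d e (Sum.inl (i, j, i', j')) =
        X (i, j) * X (i', j') - X (i, j') * X (i', j) := rfl
      rw [h3, D_sub, D_XX, D_XX]
      exact h1 i j i' j'
    · have h3 : Feq d e (Sum.inr (i, j)) = AB d e i j - AB d e j i := rfl
      rw [h3, D_sub, h2]
      exact sub_self _

theorem seg_tv (x y a b : Fin 3 → K) : Seg (tens x y) (tv x y a b) := by
  intro i j i' j'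
  simp only [tens, tv]
  ring

theorem seg_imp (x y : Fin 3 → K) (hx : x ≠ 0) (hy : y ≠ 0) (W : Fin 3 × Fin 3 → K)
    (h : Seg (tens x y) W) : ∃ a b : Fin 3 → K, W = tv x y a b := by
  obtain ⟨i0, hi0⟩ := Function.ne_iff.1 hx
  obtain ⟨j0, hj0⟩ := Function.ne_iff.1 hy
  rw [Pi.zero_apply] at hi0 hj0
  refine ⟨fun i => W (i, j0) / y j0 - x i * W (i0, j0) / (x i0 * y j0), fun j => W (i0, j) / x i0, ?_⟩
  funext ⟨i, j⟩
  have h1 := h i0 j0 i j
  simp only [tens] at h1
  simp only [tv]
  field_simp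
  linear_combination h1

theorem dal_add (x a b : Fin 3 → K) : dal x (a + b) = dal x a + dal x b := by
  funext i
  fin_cases i <;> simp [dal] <;> ring

theorem dal_smul (x a : Fin 3 → K) (r : K) : dal x (r • a) = r • dal x a := by
  funext i
  fin_cases i <;> simp [dal] <;> ring

theorem dbe_add (x a b : Fin 3 → K) : dbe x (a + b) = dbe x a + dbe x b := by
  funext i
  fin_cases i <;> simp [dbe] <;> ring

theorem dbe_smul (x a : Fin 3 → K) (r : K) : dbe x (r • a) = r • dbe x a := by
  funext i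
  fin_cases i <;> simp [dbe] <;> ring

/-- The linear map `M`. -/
noncomputable def M (x y : Fin 3 → K) (c : K) :
    ((Fin 3 → K) × (Fin 3 → K) × K) →ₗ[K] (Fin 3 → K) where
  toFun t := dal x t.1 + c • dbe y t.2.1 + t.2.2 • be y
  map_add' s t := by
    show dal x (s.1 + t.1) + c • dbe y (s.2.1 + t.2.1) + (s.2.2 + t.2.2) • be y =
      (dal x s.1 + c • dbe y s.2.1 + s.2.2 • be y) + (dal x t.1 + c • dbe y t.2.1 + t.2.2 • be y)
    rw [dal_add, dbe_add, smul_add, add_smul]
    abel
  map_smul' r t := by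
    show dal x (r • t.1) + c • dbe y (r • t.2.1) + (r * t.2.2) • be y =
      r • (dal x t.1 + c • dbe y t.2.1 + t.2.2 • be y)
    rw [dal_smul, dbe_smul, smul_add, smul_add, mul_smul, smul_comm c r]

/-- The tangent map. -/
def T (x y : Fin 3 → K) : ((Fin 3 → K) × (Fin 3 → K) × K) →ₗ[K] (Fin 3 × Fin 3 → K) where
  toFun t := tv x y t.1 t.2.1
  map_add' s t := by
    funext i
    simp [tv]
    ring
  map_smul' r t := by
    funext i
    simp [tv]
    ring

theorem M_surj (hT : claimTAN) [CharP K 2] (d e : K) (x y : Fin 3 → K) (c : K) (hx : x ≠ 0)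
    (hy : y ≠ 0) (hc : c ≠ 0) (h : al d e x = c • be y) : Function.Surjective (M x y c) := by
  intro v
  obtain ⟨a, b, μ, hv⟩ := hT K d e x y c hx hy hc h v
  refine ⟨(a, c⁻¹ • b, μ), ?_⟩
  show dal x a + c • dbe y (c⁻¹ • b) + μ • be y = v
  rw [hv]
  funext i
  fin_cases i <;> simp [dal, dbe] <;> field_simp

theorem dal_self [CharP K 2] (x : Fin 3 → K) (r : K) : dal x (r • x) = 0 := by
  have h2 : (2 : K) = 0 := CharTwo.two_eq_zero
  funext i
  fin_cases i <;> simp [dal]
  · linear_combination (r * x 1 * x 2) * h2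
  · linear_combination (r * x 0 * x 2) * h2

theorem dbe_self [CharP K 2] (y : Fin 3 → K) (r : K) : dbe y (r • y) = 0 := by
  have h2 : (2 : K) = 0 := CharTwo.two_eq_zero
  funext i
  fin_cases i <;> simp [dbe]
  · linear_combination (r * y 0 * y 2) * h2
  · linear_combination (r * y 0 * y 1) * h2

theorem range_eq [CharP K 2] (d e : K) (x y : Fin 3 → K) (c : K) (hx : x ≠ 0)
    (hy : y ≠ 0) (hby : be y ≠ 0) (h : al d e x = c • be y) :
    (LinearMap.ker (M x y c)).map (T x y) =
      LinearMap.ker (jac (Feq d e) (tens x y) : Matrix _ _ K).mulVecLin := by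
  have h2 : (2 : K) = 0 := CharTwo.two_eq_zero
  ext W
  rw [Submodule.mem_map, LinearMap.mem_ker, Matrix.mulVecLin_apply, mem_ker]
  constructor
  · rintro ⟨⟨a, b, μ⟩, hm, rfl⟩
    rw [LinearMap.mem_ker] at hm
    have hm' : ∀ i, dal x a i + c * dbe y b i + μ * be y i = 0 := fun i => congrFun hm i
    refine ⟨seg_tv x y a b, fun i j => ?_⟩
    show D (tens x y) (tv x y a b) (AB d e i j) = D (tens x y) (tv x y a b) (AB d e j i)
    rw [D_AB_tv, D_AB_tv, h]
    simp only [Pi.smul_apply, smul_eq_mul]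
    linear_combination be y j * hm' i - be y i * hm' j +
      (c * be y i * dbe y b j - c * be y j * dbe y b i) * h2
  · rintro ⟨hs, hab⟩
    obtain ⟨a, b, rfl⟩ := seg_imp x y hx hy W hs
    obtain ⟨j0, hj0⟩ := Function.ne_iff.1 hby
    rw [Pi.zero_apply] at hj0
    refine ⟨(a, b, -(dal x a j0 + c * dbe y b j0) / be y j0), ?_, rfl⟩
    rw [LinearMap.mem_ker]
    show dal x a + c • dbe y b + (-(dal x a j0 + c * dbe y b j0) / be y j0) • be y = 0
    funext i
    simp only [Pi.add_apply, Pi.smul_apply, smul_eq_mul, Pi.zero_apply]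
    have h3 := hab i j0
    rw [D_AB_tv, D_AB_tv, h] at h3
    simp only [Pi.smul_apply, smul_eq_mul] at h3
    field_simp
    linear_combination h3 + (c * be y j0 * dbe y b i - c * be y i * dbe y b j0) * h2

theorem ker_inter [CharP K 2] (x y : Fin 3 → K) (c : K) (hx : x ≠ 0)
    (hy : y ≠ 0) (hby : be y ≠ 0) :
    LinearMap.ker ((T x y).domRestrict (LinearMap.ker (M x y c))) =
      Submodule.comap (LinearMap.ker (M x y c)).subtype (Submodule.span K {(x, -y, (0 : K))}) := by
  obtain ⟨i0, hi0⟩ := Function.ne_iff.1 hx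
  obtain ⟨j0, hj0⟩ := Function.ne_iff.1 hy
  obtain ⟨k0, hk0⟩ := Function.ne_iff.1 hby
  rw [Pi.zero_apply] at hi0 hj0 hk0
  ext ⟨⟨a, b, μ⟩, hm⟩
  rw [LinearMap.mem_ker, Submodule.mem_comap, Submodule.mem_span_singleton]
  rw [LinearMap.mem_ker] at hm
  constructor
  · intro h
    have h1 : ∀ i j, a i * y j + x i * b j = 0 := fun i j => congrFun h (i, j)
    have ha : a = (a i0 / x i0) • x := by
      funext i
      simp only [Pi.smul_apply, smul_eq_mul]
      have e1 := h1 i j0
      have e2 := h1 i0 j0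
      field_simp
      apply mul_right_cancel₀ hj0
      linear_combination x i0 * e1 - x i * e2
    have hb : b = (a i0 / x i0) • (-y) := by
      funext j
      simp only [Pi.smul_apply, smul_eq_mul, Pi.neg_apply]
      have e2 := h1 i0 j
      field_simp
      linear_combination e2
    have hmu : μ = 0 := by
      have h3 : dal x a + c • dbe y b + μ • be y = 0 := hm
      rw [ha, dal_self, hb, smul_neg, ← neg_smul, dbe_self, smul_zero, zero_add, zero_add] at h3
      have h4 := congrFun h3 k0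
      simp only [Pi.smul_apply, smul_eq_mul, Pi.zero_apply] at h4
      exact (mul_eq_zero.1 h4).resolve_right hk0
    refine ⟨a i0 / x i0, ?_⟩
    show (a i0 / x i0) • (x, -y, (0 : K)) = (a, b, μ)
    rw [Prod.smul_mk, Prod.smul_mk, ← ha, ← hb, smul_zero, hmu]
  · rintro ⟨r, hr⟩
    have hr' : r • (x, -y, (0 : K)) = (a, b, μ) := hr
    rw [Prod.smul_mk, Prod.smul_mk, Prod.mk.injEq, Prod.mk.injEq] at hr'
    obtain ⟨ha, hb, -⟩ := hr'
    show tv x y a b = 0
    funext ⟨i, j⟩
    simp only [tv, ← ha, ← hb, Pi.smul_apply, smul_eq_mul, Pi.neg_apply, Pi.zero_apply]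
    ring

theorem finrank_line [CharP K 2] (x y : Fin 3 → K) (c : K) (hx : x ≠ 0) :
    Module.finrank K (Submodule.comap (LinearMap.ker (M x y c)).subtype
      (Submodule.span K {(x, -y, (0 : K))})) = 1 := by
  have h1 : Submodule.span K {(x, -y, (0 : K))} ≤ LinearMap.ker (M x y c) := by
    rw [Submodule.span_singleton_le_iff_mem, LinearMap.mem_ker]
    show dal x x + c • dbe y (-y) + (0 : K) • be y = 0
    have e1 := dal_self x (1 : K)
    have e2 := dbe_self y (-1 : K)
    rw [one_smul] at e1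
    rw [neg_smul, one_smul] at e2
    rw [e1, e2, smul_zero, zero_smul, zero_add, zero_add]
  rw [(Submodule.comapSubtypeEquivOfLe h1).finrank_eq]
  apply finrank_span_singleton
  intro h
  exact hx (congrArg Prod.fst h)

end

end RK

theorem prfRK (hNZ : claimNZ) (hT : claimTAN) : claimRK := by
  intro K _ _ d e x y hx hy hpar
  have hby : be y ≠ 0 := fun h => hy ((hNZ K d e).2 y h)
  have hax : al d e x ≠ 0 := fun h => hx ((hNZ K d e).1 x h)
  obtain ⟨j0, hj0⟩ := Function.ne_iff.1 hby
  rw [Pi.zero_apply] at hj0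
  obtain ⟨c, hcdef⟩ : ∃ c : K, c = al d e x j0 / be y j0 := ⟨_, rfl⟩
  have hal : al d e x = c • be y := by
    funext i
    simp only [Pi.smul_apply, smul_eq_mul]
    rw [hcdef]
    have := hpar i j0
    field_simp
    linear_combination this
  have hc : c ≠ 0 := by
    intro h
    apply hax
    rw [hal, h, zero_smul]
  have hsurj := RK.M_surj hT d e x y c hx hy hc hal
  have f1 := LinearMap.finrank_range_add_finrank_ker (RK.M x y c)
  rw [LinearMap.range_eq_top.2 hsurj, finrank_top] at f1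
  have f2 := LinearMap.finrank_range_add_finrank_ker
    ((RK.T x y).domRestrict (LinearMap.ker (RK.M x y c)))
  rw [RK.ker_inter x y c hx hy hby, RK.finrank_line x y c hx, LinearMap.range_domRestrict,
    RK.range_eq d e x y c hx hy hby hal] at f2
  have f3 := LinearMap.finrank_range_add_finrank_ker
    (jac (Feq d e) (tens x y) : Matrix _ _ K).mulVecLin
  have f4 : Module.finrank K ((Fin 3 → K) × (Fin 3 → K) × K) = 7 := by
    simp
  have f5 : Module.finrank K (Fin 3 → K) = 3 := by simp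
  have f6 : Module.finrank K (Fin 3 × Fin 3 → K) = 9 := by simp
  rw [f4, f5] at f1
  rw [f6] at f3
  unfold Matrix.rank
  omega

end Pool.Agent.Work.MP_d5a5f5_ag
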