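import Pool.Agent.Work.MP_d5a5f5_ag.Stmts

namespace Pool.Agent.Work.MP_d5a5f5_ag

open MvPolynomial

theorem prfBADNZ : claimBADNZ := by
  intro K _ _ _ d e
  constructor
  · -- a good value of `θ = x₀² + e`
    have hinf : Infinite K := IsAlgClosed.instInfinite
    have hex : ∃ t : K, t * (1 + t ^ 3) * (d ^ 3 * t ^ 6 + (1 + t ^ 3) ^ 3) ≠ 0 := by
      by_contra hcon
      push Not at hcon
      let p : Polynomial K := Polynomial.X * (1 + Polynomial.X ^ 3) *
        (Polynomial.C (d ^ 3) * Polynomial.X ^ 6 + (1 + Polynomial.X ^ 3) ^ 3)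
      have hp : p = 0 := by
        apply Polynomial.funext
        intro t
        simp only [p, Polynomial.eval_mul, Polynomial.eval_X, Polynomial.eval_add,
          Polynomial.eval_one, Polynomial.eval_pow, Polynomial.eval_C, Polynomial.eval_zero]
        exact hcon t
      have h1 : (1 + Polynomial.X ^ 3 : Polynomial K) ≠ 0 := by
        intro h
        have := congrArg (Polynomial.eval 0) h
        simp at this
      have h2 : (Polynomial.C (d ^ 3) * Polynomial.X ^ 6 +
          (1 + Polynomial.X ^ 3) ^ 3 : Polynomial K) ≠ 0 := by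
        intro h
        have := congrArg (Polynomial.eval 0) h
        simp at this
      rcases mul_eq_zero.1 hp with h | h
      · rcases mul_eq_zero.1 h with h | h
        · exact Polynomial.X_ne_zero h
        · exact h1 h
      · exact h2 h
    obtain ⟨t, ht⟩ := hex
    obtain ⟨x0, hx0⟩ := IsAlgClosed.exists_pow_nat_eq (t - e) (n := 2) (by norm_num)
    refine ⟨![x0, 0, 1], ?_⟩
    have hal : al d e ![x0, 0, 1] 0 = t := by
      simp [al, hx0]
    unfold bad
    rw [hal]
    have e1 : (![x0, 0, 1] : Fin 3 → K) 2 = 1 := rfl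
    rw [e1]
    intro h
    apply ht
    rw [← h]
    ring
  · have hX : ∀ i : Fin 3, (X (i, 0) : MvPolynomial (Fin 3 × Fin 3) K).IsHomogeneous 1 :=
      fun i => isHomogeneous_X _ _
    have hC : ∀ c : K, (C c : MvPolynomial (Fin 3 × Fin 3) K).IsHomogeneous 0 :=
      fun c => isHomogeneous_C _ _
    have hal : (al (C d) (C e)
        (fun i : Fin 3 => (X (i, 0) : MvPolynomial (Fin 3 × Fin 3) K)) 0).IsHomogeneous 2 := by
      show (X (0, 0) ^ 2 + X (1, 0) * X (2, 0) + C d * X (1, 0) ^ 2 + C e * X (2, 0) ^ 2 :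
        MvPolynomial (Fin 3 × Fin 3) K).IsHomogeneous 2
      refine (((?_ : IsHomogeneous _ 2).add ?_).add ?_).add ?_
      · exact (hX 0).pow 2
      · exact (hX 1).mul (hX 2)
      · exact ((hC d).mul ((hX 1).pow 2))
      · exact ((hC e).mul ((hX 2).pow 2))
    unfold bad
    have h1 : ((X (2, 0) : MvPolynomial (Fin 3 × Fin 3) K) ^ 6 + al (C d) (C e)
        (fun i : Fin 3 => (X (i, 0) : MvPolynomial (Fin 3 × Fin 3) K)) 0 ^ 3).IsHomogeneous 6 :=
      ((hX 2).pow 6).add (hal.pow 3)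
    have hCd : (C d ^ 3 : MvPolynomial (Fin 3 × Fin 3) K).IsHomogeneous 0 := by
      simpa using (hC d).pow 3
    have h2 : (C d ^ 3 * (X (2, 0) : MvPolynomial (Fin 3 × Fin 3) K) ^ 6 * al (C d) (C e)
        (fun i : Fin 3 => (X (i, 0) : MvPolynomial (Fin 3 × Fin 3) K)) 0 ^ 6 +
        ((X (2, 0) : MvPolynomial (Fin 3 × Fin 3) K) ^ 6 + al (C d) (C e)
        (fun i : Fin 3 => (X (i, 0) : MvPolynomial (Fin 3 × Fin 3) K)) 0 ^ 3) ^ 3).IsHomogeneous
        18 :=
      ((hCd.mul ((hX 2).pow 6)).mul (hal.pow 6)).add (h1.pow 3)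
    exact (((hX 2).mul hal).mul h1).mul h2

end Pool.Agent.Work.MP_d5a5f5_ag
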