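import Pool.Agent.Work.MP_d5a5f5_ag.ItemPAR
import Pool.Agent.Work.MP_d5a5f5_ag.ItemBADNZ

/-!
VAN: the ideal of the cone over `X` is the kernel of the substitution `th`.
-/

namespace Pool.Agent.Work.MP_d5a5f5_ag

open MvPolynomial

namespace ItemVAN

theorem map_pX {R S : Type} [CommRing R] [CommRing S] (f : R →+* S) (s r U A : R) (i : Fin 3) :
    f (pX s r U A i) = pX (f s) (f r) (f U) (f A) i := by
  fin_cases i <;> simp [pX, pX1, pP, pW, pN, pE, pD]

theorem map_pY {R S : Type} [CommRing R] [CommRing S] (f : R →+* S) (s r U A : R) (i : Fin 3) :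
    f (pY s r U A i) = pY (f s) (f r) (f U) (f A) i := by
  fin_cases i <;> simp [pY, pM, pP, pW, pN, pE, pD]

/-- Evaluating the substitution `th`. -/
theorem eval_th {K : Type} [Field K] (s r : K) (w : Fin 3 → K) (ij : Fin 3 × Fin 3) :
    eval w (th s r ij) = w 0 * tens (pX s r (w 1) (w 2)) (pY s r (w 1) (w 2)) ij := by
  simp only [th, tens, map_mul, eval_X]
  have h1 := map_pX (eval w : MvPolynomial (Fin 3) K →+* K) (C s) (C r) (X 1) (X 2) ij.1
  have h2 := map_pY (eval w : MvPolynomial (Fin 3) K →+* K) (C s) (C r) (X 1) (X 2) ij.2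
  simp only [eval_C, eval_X] at h1 h2
  rw [h1, h2]

theorem eval_aeval_th {K : Type} [Field K] (s r : K) (w : Fin 3 → K)
    (G : MvPolynomial (Fin 3 × Fin 3) K) :
    eval w (aeval (th s r) G) =
      eval (w 0 • tens (pX s r (w 1) (w 2)) (pY s r (w 1) (w 2))) G := by
  have h1 : eval w (aeval (th s r) G) = eval (fun ij => eval w (th s r ij)) G := by
    rw [aeval_def, eval₂_eq', map_sum, eval_eq']
    apply Finset.sum_congr rfl
    intro c _
    simp [map_mul, map_prod, map_pow, algebraMap_eq]
  rw [h1]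
  congr 1
  congr 1
  funext ij
  rw [eval_th]
  rfl

/-- `bad` as a polynomial. -/
noncomputable def badP {K : Type} [Field K] (d e : K) : MvPolynomial (Fin 3) K :=
  bad (C d) (C e) X

theorem eval_badP {K : Type} [Field K] (d e : K) (x : Fin 3 → K) :
    eval x (badP d e) = bad d e x := by
  simp [badP, bad, al]

/-- `G (x ⊗ y)` as a polynomial. -/
noncomputable def pull {K : Type} [Field K] (G : MvPolynomial (Fin 3 × Fin 3) K) :
    MvPolynomial (Fin 3 ⊕ Fin 3) K :=
  aeval (fun ij : Fin 3 × Fin 3 => X (Sum.inl ij.1) * X (Sum.inr ij.2)) G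

theorem eval_pull {K : Type} [Field K] (G : MvPolynomial (Fin 3 × Fin 3) K)
    (x y : Fin 3 → K) : eval (Sum.elim x y) (pull G) = eval (tens x y) G := by
  unfold pull
  rw [aeval_def, eval₂_eq', map_sum, eval_eq']
  apply Finset.sum_congr rfl
  intro c _
  simp [map_mul, map_prod, map_pow, algebraMap_eq, tens]

end ItemVAN

open ItemVAN in
theorem prfVAN (hAB : claimAB) (hBR : claimBR) (hCONE : claimCONE) (hDEN : claimDEN)
    (hGOOD : claimGOOD) : claimVAN := by
  intro K _ _ _ s r hs G
  have : Infinite K := IsAlgClosed.instInfinite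
  constructor
  · intro h
    apply MvPolynomial.funext
    intro w
    rw [eval_aeval_th, map_zero]
    apply h
    intro i
    have h1 : w 0 • tens (pX s r (w 1) (w 2)) (pY s r (w 1) (w 2)) =
        tens (w 0 • pX s r (w 1) (w 2)) (pY s r (w 1) (w 2)) := by
      funext ij
      simp [tens, mul_assoc]
    rw [h1]
    apply (hAB K (s ^ 8) (r ^ 2)).2.2
    have h2 := prfPAR K s r (w 1) (w 2)
    have h3 : al (s ^ 8) (r ^ 2) (w 0 • pX s r (w 1) (w 2)) =
        w 0 ^ 2 • be (pY s r (w 1) (w 2)) := by
      rw [← h2]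
      funext i
      fin_cases i
      · simp [al]; ring
      · simp [al]; ring
      · simp [al]; ring
    intro i j
    rw [h3]
    simp only [Pi.smul_apply, smul_eq_mul]
    ring
  · intro h z hz
    have hw : ∀ w U A : K, eval (w • tens (pX s r U A) (pY s r U A)) G = 0 := by
      intro w U A
      have h1 := congrArg (eval ![w, U, A]) h
      rw [eval_aeval_th, map_zero] at h1
      exact h1
    by_cases hz0 : z = 0
    · have := hw 0 0 0
      rw [zero_smul] at this
      rw [hz0]
      exact this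
    · obtain ⟨x, y, hx, hy, hzt, hp⟩ := (hBR K _ _ z).1 ⟨hz0, hz⟩
      obtain ⟨x', y', hx', hy', h1, h2⟩ := hCONE K _ _ x y hx hy hp
      have hden : ∀ x y : Fin 3 → K, al (s ^ 8) (r ^ 2) x = be y →
          eval (Sum.elim x y) (pull G) = 0 := by
        refine hDEN K (s ^ 8) (r ^ 2) (pull G) (badP (s ^ 8) (r ^ 2)) ?_ ?_
        · obtain ⟨x, hx⟩ := (prfBADNZ K (s ^ 8) (r ^ 2)).1
          intro h0
          apply hx
          rw [← eval_badP, h0, map_zero]
        · intro x y hxy hb
          rw [eval_badP] at hb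
          obtain ⟨w, U, A, -, hwUA⟩ := hGOOD K s r hs x y hxy hb
          rw [eval_pull, hwUA]
          exact hw w U A
      have := hden x' y' h1
      rw [eval_pull, h2, ← hzt] at this
      exact this

end Pool.Agent.Work.MP_d5a5f5_ag
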