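import Pool.Agent.Work.MP_d5a5f5_ag.ItemPAR
import Pool.Agent.Work.MP_d5a5f5_ag.ItemBADNZ

/-!
Assembly: the surface `Feq d e` over a field of characteristic two.
-/

namespace Pool.Agent.Work.MP_d5a5f5_ag

open MvPolynomial

section

variable {k : Type} [Field k]

theorem aeval_feq (hM : claimMAP) (d e : k) {L : Type} [CommRing L] [Algebra k L]
    (v : Fin 3 × Fin 3 → L) (i : (Fin 3 × Fin 3 × Fin 3 × Fin 3) ⊕ (Fin 3 × Fin 3)) :
    aeval v (Feq d e i) = eval v (Feq (algebraMap k L d) (algebraMap k L e) i) := by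
  rw [← hM, aeval_def, eval₂_eq_eval_map]

theorem isPoint_iff (hM : claimMAP) (d e : k) {L : Type} [CommRing L] [Algebra k L]
    (v : Fin 3 × Fin 3 → L) :
    IsPoint (Feq d e) v ↔
      v ≠ 0 ∧ ∀ i, eval v (Feq (algebraMap k L d) (algebraMap k L e) i) = 0 := by
  unfold IsPoint
  simp only [aeval_feq hM]

theorem aeval_self {K σ : Type} [CommRing K] (v : σ → K) (G : MvPolynomial σ K) :
    aeval v G = eval v G := by
  rw [aeval_def, eval₂_eq_eval_map]
  congr 1
  exact MvPolynomial.map_id G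

theorem jac_feq (hM : claimMAP) (d e : k) {L : Type} [Field L] [Algebra k L]
    (v : Fin 3 × Fin 3 → L) :
    jac (Feq d e) v = jac (Feq (algebraMap k L d) (algebraMap k L e)) v := by
  ext i s
  show aeval v (pderiv s (Feq d e i)) =
    aeval v (pderiv s (Feq (algebraMap k L d) (algebraMap k L e) i))
  rw [aeval_self, aeval_def, eval₂_eq_eval_map, ← pderiv_map, hM]

/-- The two roots. -/
theorem exists_roots (d e : k) (hd : d ≠ 0) :
    ∃ s r : AlgebraicClosure k, s ≠ 0 ∧ algebraMap k (AlgebraicClosure k) d = s ^ 8 ∧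
    algebraMap k (AlgebraicClosure k) e = r ^ 2 := by
  obtain ⟨s, hs⟩ := IsAlgClosed.exists_pow_nat_eq (algebraMap k (AlgebraicClosure k) d)
    (n := 8) (by norm_num)
  obtain ⟨r, hr⟩ := IsAlgClosed.exists_pow_nat_eq (algebraMap k (AlgebraicClosure k) e)
    (n := 2) (by norm_num)
  refine ⟨s, r, ?_, hs.symm, hr.symm⟩
  rintro rfl
  have h0 : algebraMap k (AlgebraicClosure k) d = 0 := by rw [← hs]; simp
  exact hd ((map_eq_zero _).1 h0)

theorem charTwo_kb [CharP k 2] : CharP (AlgebraicClosure k) 2 :=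
  charP_of_injective_algebraMap (algebraMap k (AlgebraicClosure k)).injective 2

theorem vanIdeal_eq [CharP k 2] (hM : claimMAP) (hV : claimVAN) (d e : k)
    (s r : AlgebraicClosure k) (hs : s ≠ 0)
    (hd : algebraMap k (AlgebraicClosure k) d = s ^ 8)
    (he : algebraMap k (AlgebraicClosure k) e = r ^ 2) :
    vanIdeal (Feq d e) = RingHom.ker (aeval (th s r) :
      MvPolynomial (Fin 3 × Fin 3) (AlgebraicClosure k) →ₐ[AlgebraicClosure k]
        MvPolynomial (Fin 3) (AlgebraicClosure k)) := by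
  have : CharP (AlgebraicClosure k) 2 := charTwo_kb
  ext G
  rw [RingHom.mem_ker]
  refine Iff.trans ?_ (hV (AlgebraicClosure k) s r hs G)
  rw [vanIdeal, mem_vanishingIdeal_iff]
  constructor
  · intro h z hz
    rw [← aeval_self]
    apply h
    intro i
    rw [aeval_feq hM, hd, he]
    exact hz i
  · intro h z hz
    rw [aeval_self]
    apply h
    intro i
    have := hz i
    rw [aeval_feq hM, hd, he] at this
    exact this

theorem bad_eval {K : Type} [Field K] (d e : K) (z : Fin 3 × Fin 3 → K) :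
    eval z (bad (C d) (C e) (fun i : Fin 3 => (X (i, 0) : MvPolynomial (Fin 3 × Fin 3) K))) =
      bad d e (fun i => z (i, 0)) := by
  simp [bad, al]

theorem bad_smul {K : Type} [Field K] (d e c : K) (x : Fin 3 → K) :
    bad d e (c • x) = c ^ 27 * bad d e x := by
  have h0 : al d e (c • x) 0 = c ^ 2 * al d e x 0 := by
    show (c * x 0) ^ 2 + (c * x 1) * (c * x 2) + d * (c * x 1) ^ 2 + e * (c * x 2) ^ 2 =
      c ^ 2 * (x 0 ^ 2 + x 1 * x 2 + d * x 1 ^ 2 + e * x 2 ^ 2)
    ring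
  have h2 : (c • x) 2 = c * x 2 := rfl
  unfold bad
  rw [h0, h2]
  generalize al d e x 0 = a
  generalize x 2 = b
  ring

/-- The coordinates of a point of the affine cone. -/
theorem isPoint_tens [CharP k 2] (hM : claimMAP) (hB : claimBR) (hC : claimCONE) (d e : k)
    (v : Fin 3 × Fin 3 → AlgebraicClosure k) (hv : IsPoint (Feq d e) v) :
    ∃ x y : Fin 3 → AlgebraicClosure k, x ≠ 0 ∧ y ≠ 0 ∧
      al (algebraMap k _ d) (algebraMap k _ e) x = be y ∧ v = tens x y := by
  rw [isPoint_iff hM] at hv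
  obtain ⟨x, y, hx, hy, hz, hp⟩ := (hB _ _ _ v).1 hv
  obtain ⟨x', y', hx', hy', h1, h2⟩ := hC _ _ _ x y hx hy hp
  exact ⟨x', y', hx', hy', h1, hz.trans h2.symm⟩

theorem isPoint_of_eq (hM : claimMAP) (hAB : claimAB) (d e : k) {L : Type} [CommRing L]
    [Algebra k L] (x y : Fin 3 → L)
    (h : al (algebraMap k L d) (algebraMap k L e) x = be y) (i) :
    aeval (tens x y) (Feq d e i) = 0 := by
  rw [aeval_feq hM]
  apply (hAB L _ _).2.2
  intro i j
  rw [h]
  ring

/-- There is a good point. -/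
theorem exists_good [CharP k 2] (hNZ : claimNZ) (hEX : claimEX) (hBN : claimBADNZ) (d e : k) :
    ∃ x y : Fin 3 → AlgebraicClosure k, x ≠ 0 ∧ y ≠ 0 ∧
      al (algebraMap k _ d) (algebraMap k _ e) x = be y ∧
      bad (algebraMap k _ d) (algebraMap k _ e) x ≠ 0 := by
  have : CharP (AlgebraicClosure k) 2 := charTwo_kb
  obtain ⟨x, hx⟩ := (hBN (AlgebraicClosure k) (algebraMap k _ d) (algebraMap k _ e)).1
  obtain ⟨y, hy⟩ := hEX (AlgebraicClosure k) (al (algebraMap k _ d) (algebraMap k _ e) x)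
  have hx0 : x ≠ 0 := by
    rintro rfl
    apply hx
    simp [bad]
  refine ⟨x, y, hx0, ?_, hy.symm, hx⟩
  rintro rfl
  apply hx0
  apply (hNZ (AlgebraicClosure k) (algebraMap k _ d) (algebraMap k _ e)).1
  rw [← hy]
  ext i
  fin_cases i <;> simp [be]

theorem tens_ne_zero {K : Type} [Field K] {x y : Fin 3 → K} (hx : x ≠ 0) (hy : y ≠ 0) :
    tens x y ≠ 0 := by
  obtain ⟨i, hi⟩ := Function.ne_iff.1 hx
  obtain ⟨j, hj⟩ := Function.ne_iff.1 hy
  intro h
  have := congrFun h (i, j)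
  exact mul_ne_zero hi hj this

/-- The first variety axioms. -/
theorem smoothProj [CharP k 2] (hM : claimMAP) (hAB : claimAB) (hNZ : claimNZ) (hEX : claimEX)
    (hB : claimBR) (hC : claimCONE) (hV : claimVAN) (hT : claimTR) (hR : claimRK)
    (hBN : claimBADNZ) (d e : k) (hd : d ≠ 0) :
    IsSmoothProjectiveVariety (Feq d e) 2 := by
  have : CharP (AlgebraicClosure k) 2 := charTwo_kb
  obtain ⟨s, r, hs, h8, h2⟩ := exists_roots d e hd
  have hI := vanIdeal_eq hM hV d e s r hs h8 h2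
  refine ⟨fun i => ⟨2, (hAB k d e).2.1 i⟩, ?_, ?_, ?_, ?_⟩
  · obtain ⟨x, y, hx, hy, hxy, -⟩ := exists_good hNZ hEX hBN d e
    exact ⟨tens x y, tens_ne_zero hx hy, fun i => isPoint_of_eq hM hAB d e x y hxy i⟩
  · rw [hI]
    exact RingHom.ker_isPrime _
  · rw [hI]
    have := hT (AlgebraicClosure k) s r hs
    rw [this]
    norm_num
  · intro v hv
    obtain ⟨x, y, hx, hy, hxy, rfl⟩ := isPoint_tens hM hB hC d e v hv
    rw [jac_feq hM]
    have := hR (AlgebraicClosure k) (algebraMap k _ d) (algebraMap k _ e) x y hx hy (by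
      intro i j; rw [hxy]; ring)
    rw [show Fintype.card (Fin 3 × Fin 3) = 9 by simp]
    exact this

end

end Pool.Agent.Work.MP_d5a5f5_ag
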