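import Pool.Agent.Work.MP_d5a5f5_ag.Asm

/-!
Assembly: rational connectedness and unirationality over the algebraic closure.
-/

namespace Pool.Agent.Work.MP_d5a5f5_ag

open MvPolynomial

section

variable {k : Type} [Field k]

theorem map_pX {R S : Type} [CommRing R] [CommRing S] (f : R →+* S) (s r U A : R) (i : Fin 3) :
    f (pX s r U A i) = pX (f s) (f r) (f U) (f A) i := by
  fin_cases i <;> simp [pX, pX1, pP, pW, pN, pE, pD]

theorem map_pY {R S : Type} [CommRing R] [CommRing S] (f : R →+* S) (s r U A : R) (i : Fin 3) :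
    f (pY s r U A i) = pY (f s) (f r) (f U) (f A) i := by
  fin_cases i <;> simp [pY, pM, pP, pW, pN, pE, pD]

theorem map_tens {R S : Type} [CommRing R] [CommRing S] (f : R →+* S) (s r U A : R)
    (i : Fin 3 × Fin 3) :
    f (tens (pX s r U A) (pY s r U A) i) =
      tens (pX (f s) (f r) (f U) (f A)) (pY (f s) (f r) (f U) (f A)) i := by
  simp only [tens, map_mul, map_pX, map_pY]

theorem ratConn [CharP k 2] (hM : claimMAP) (hAB : claimAB) (hNZ : claimNZ) (hEX : claimEX)
    (hB : claimBR) (hC : claimCONE) (hG : claimGOOD)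
    (hCu : claimCURVE) (hBN : claimBADNZ) (d e : k) (hd : d ≠ 0) :
    RationallyConnected (Feq d e) := by
  have : CharP (AlgebraicClosure k) 2 := charTwo_kb
  have : CharP (Polynomial (AlgebraicClosure k)) 2 := inferInstance
  obtain ⟨s, r, hs, h8, h2⟩ := exists_roots d e hd
  set D := algebraMap k (AlgebraicClosure k) d with hD
  set E := algebraMap k (AlgebraicClosure k) e with hE
  refine ⟨bad (C D) (C E) (fun i : Fin 3 => X (i, 0)), ⟨27, (hBN _ D E).2⟩, ?_, ?_⟩
  · intro hmem
    obtain ⟨x, y, hx, hy, hxy, hb⟩ := exists_good hNZ hEX hBN d e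
    rw [vanIdeal, mem_vanishingIdeal_iff] at hmem
    have h0 := hmem (tens x y) (fun i => isPoint_of_eq hM hAB d e x y hxy i)
    rw [aeval_self, bad_eval] at h0
    have hy0 : y 0 ≠ 0 := by
      intro h
      apply hb
      have h1 : al D E x 0 = 0 := by
        have : al D E x = be y := hxy
        rw [this]
        simp [be, h]
      simp [bad, h1, ← hD, ← hE]
    have h3 : (fun i => tens x y (i, 0)) = y 0 • x := by
      funext i
      simp [tens, mul_comm]
    rw [h3, bad_smul] at h0
    exact (mul_ne_zero (pow_ne_zero _ hy0) hb) h0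
  · intro p q hp hq hGp hGq
    have key : ∀ p : Fin 3 × Fin 3 → AlgebraicClosure k, IsPoint (Feq d e) p →
        eval p (bad (C D) (C E) (fun i : Fin 3 => X (i, 0))) ≠ 0 →
        ∃ w U A : AlgebraicClosure k, w ≠ 0 ∧
          p = w • tens (pX s r U A) (pY s r U A) := by
      intro p hp hGp
      obtain ⟨x, y, hx, hy, hxy, rfl⟩ := isPoint_tens hM hB hC d e p hp
      rw [bad_eval] at hGp
      have h3 : (fun i => tens x y (i, 0)) = y 0 • x := by
        funext i
        simp [tens, mul_comm]
      rw [h3, bad_smul] at hGp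
      have hb := right_ne_zero_of_mul hGp
      rw [h8, h2] at hb
      have hxy' : al (s ^ 8) (r ^ 2) x = be y := by
        rw [← h8, ← h2]; exact hxy
      exact hG _ s r hs x y hxy' hb
    obtain ⟨w1, U1, A1, hw1, hp1⟩ := key p hp hGp
    obtain ⟨w2, U2, A2', hw2, hq1⟩ := key q hq hGq
    let U : Polynomial (AlgebraicClosure k) :=
      Polynomial.C U1 + Polynomial.X * Polynomial.C (U2 - U1)
    let A : Polynomial (AlgebraicClosure k) :=
      Polynomial.C A1 + Polynomial.X * Polynomial.C (A2' - A1)
    refine hCu (Fin 3 × Fin 3) _ k (Feq d e) (fun i => ⟨2, (hAB k d e).2.1 i⟩)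
      (tens (pX (Polynomial.C s) (Polynomial.C r) U A) (pY (Polynomial.C s) (Polynomial.C r) U A))
      ?_ p q 0 1 w1⁻¹ w2⁻¹ hp.1 hq.1 (inv_ne_zero hw1) (inv_ne_zero hw2) ?_ ?_
    · intro i
      apply isPoint_of_eq hM hAB
      have e1 : algebraMap k (Polynomial (AlgebraicClosure k)) d = (Polynomial.C s) ^ 8 := by
        rw [IsScalarTower.algebraMap_apply k (AlgebraicClosure k) (Polynomial _), ← hD, h8]
        simp
      have e2 : algebraMap k (Polynomial (AlgebraicClosure k)) e = (Polynomial.C r) ^ 2 := by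
        rw [IsScalarTower.algebraMap_apply k (AlgebraicClosure k) (Polynomial _), ← hE, h2]
        simp
      rw [e1, e2]
      exact prfPAR _ _ _ _ _
    · funext i
      rw [Pi.smul_apply, hp1, ← Polynomial.coe_evalRingHom, map_tens]
      simp [U, A, hw1]
    · funext i
      rw [Pi.smul_apply, hq1, ← Polynomial.coe_evalRingHom, map_tens]
      simp [U, A, hw2]

theorem unir_kb [CharP k 2] (hM : claimMAP) (hAB : claimAB) (hV : claimVAN)
    (d e : k) (hd : d ≠ 0) (hne : ∃ v : Fin 3 × Fin 3 → AlgebraicClosure k,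
      IsPoint (Feq d e) v) :
    Unirational (Feq d e) (AlgebraicClosure k) := by
  have : CharP (AlgebraicClosure k) 2 := charTwo_kb
  obtain ⟨s, r, hs, h8, h2⟩ := exists_roots d e hd
  set φ : Fin 3 × Fin 3 → MvPolynomial (Fin 2) (AlgebraicClosure k) :=
    tens (pX (C s) (C r) (X 0) (X 1)) (pY (C s) (C r) (X 0) (X 1)) with hφ
  -- a form vanishing on `φ` vanishes on `X`
  have hdom : ∀ G : MvPolynomial (Fin 3 × Fin 3) (AlgebraicClosure k),
      (∃ m, G.IsHomogeneous m) → aeval φ G = 0 →
      ∀ v : Fin 3 × Fin 3 → AlgebraicClosure k, IsPoint (Feq d e) v → aeval v G = 0 := by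
    rintro G ⟨m, hm⟩ hG v hv
    have hth : aeval (th s r) G = 0 := by
      have e1 : (th s r) = fun i => X 0 * rename (Fin.succ : Fin 2 → Fin 3) (φ i) := by
        funext i
        have : rename (Fin.succ : Fin 2 → Fin 3) (φ i) =
            (rename (Fin.succ : Fin 2 → Fin 3) :
              MvPolynomial (Fin 2) (AlgebraicClosure k) →ₐ[AlgebraicClosure k]
                MvPolynomial (Fin 3) (AlgebraicClosure k)).toRingHom (φ i) := rfl
        rw [th, this, hφ, map_tens]
        simp
      rw [e1]
      have e2 : aeval (fun i => X 0 * rename (Fin.succ : Fin 2 → Fin 3) (φ i)) G =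
          X 0 ^ m * aeval (fun i => rename (Fin.succ : Fin 2 → Fin 3) (φ i)) G := by
        rw [aeval_def, aeval_def, eval₂_eq', eval₂_eq', Finset.mul_sum]
        apply Finset.sum_congr rfl
        intro c hc
        have hdeg : ∑ i, c i = m := by
          have := hm (mem_support_iff.1 hc)
          rw [← this, Finsupp.weight_apply, Finsupp.sum_fintype]
          · simp
          · simp
        simp only [mul_pow, Finset.prod_mul_distrib]
        rw [Finset.prod_pow_eq_pow_sum, hdeg]
        ring
      have e3 : aeval (fun i => rename (Fin.succ : Fin 2 → Fin 3) (φ i)) G =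
          rename (Fin.succ : Fin 2 → Fin 3) (aeval φ G) := by
        have := congrArg (fun f => f G)
          (comp_aeval (R := AlgebraicClosure k) φ
            (rename (Fin.succ : Fin 2 → Fin 3) :
              MvPolynomial (Fin 2) (AlgebraicClosure k) →ₐ[AlgebraicClosure k] _))
        simpa using this.symm
      rw [e2, e3, hG]
      simp
    have h1 := (hV (AlgebraicClosure k) s r hs G).2 hth v (by
      intro i
      rw [← h8, ← h2, ← aeval_feq hM]
      exact hv.2 i)
    rw [aeval_self]
    exact h1
  refine ⟨2, by norm_num, φ, ⟨?_, ?_⟩, hdom⟩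
  · intro h0
    obtain ⟨v, hv⟩ := hne
    apply hv.1
    funext ij
    have := hdom (X ij) ⟨1, isHomogeneous_X _ _⟩ (by simp [h0]) v hv
    simpa using this
  · intro i
    apply isPoint_of_eq hM hAB
    have e1 : algebraMap k (MvPolynomial (Fin 2) (AlgebraicClosure k)) d = (C s) ^ 8 := by
      rw [IsScalarTower.algebraMap_apply k (AlgebraicClosure k) (MvPolynomial _ _), h8]
      simp [algebraMap_eq]
    have e2 : algebraMap k (MvPolynomial (Fin 2) (AlgebraicClosure k)) e = (C r) ^ 2 := by
      rw [IsScalarTower.algebraMap_apply k (AlgebraicClosure k) (MvPolynomial _ _), h2]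
      simp [algebraMap_eq]
    rw [e1, e2]
    exact prfPAR _ _ _ _ _

end

end Pool.Agent.Work.MP_d5a5f5_ag
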