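import Pool.Agent.Work.MP_d5a5f5_ag.General

/-!
The example: the surface `α(x)` parallel to `β(y)` and its parametrisation.
-/

namespace Pool.Agent.Work.MP_d5a5f5_ag

open MvPolynomial

section Example

variable {R : Type*} [CommRing R]

/-- The quadratic map `α(x) = (x₁² + x₂x₃ + d x₂² + e x₃², x₂² + x₁x₃, x₃²)`. -/
def al (d e : R) (x : Fin 3 → R) : Fin 3 → R :=
  ![x 0 ^ 2 + x 1 * x 2 + d * x 1 ^ 2 + e * x 2 ^ 2, x 1 ^ 2 + x 0 * x 2, x 2 ^ 2]

/-- The quadratic map `β(y) = (y₁², y₂² + y₁y₃, y₃² + y₁y₂)`. -/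
def be (y : Fin 3 → R) : Fin 3 → R :=
  ![y 0 ^ 2, y 1 ^ 2 + y 0 * y 2, y 2 ^ 2 + y 0 * y 1]

/-- The coefficient matrices of `α`. -/
def ca (d e : R) : Fin 3 → Matrix (Fin 3) (Fin 3) R :=
  ![!![1, 0, 0; 0, d, 1; 0, 0, e], !![0, 0, 1; 0, 1, 0; 0, 0, 0], !![0, 0, 0; 0, 0, 0; 0, 0, 1]]

/-- The coefficient matrices of `β`. -/
def cb : Fin 3 → Matrix (Fin 3) (Fin 3) R :=
  ![!![1, 0, 0; 0, 0, 0; 0, 0, 0], !![0, 0, 1; 0, 1, 0; 0, 0, 0], !![0, 1, 0; 0, 0, 0; 0, 0, 1]]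

/-- The quadratic form in the Segre coordinates `z (i, j) = x i * y j` which gives
`α(x)_i β(y)_j`. -/
noncomputable def AB (d e : R) (i j : Fin 3) : MvPolynomial (Fin 3 × Fin 3) R :=
  ∑ p, ∑ q, ∑ u, ∑ v, C (ca d e i p q * cb j u v) * (X (p, u) * X (q, v))

/-- The equations in projective 8-space: the Segre equations of the product of two projective
planes and the equations `α(x)_i β(y)_j = α(x)_j β(y)_i`. -/
noncomputable def Feq (d e : R) :
    (Fin 3 × Fin 3 × Fin 3 × Fin 3) ⊕ (Fin 3 × Fin 3) → MvPolynomial (Fin 3 × Fin 3) R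
  | Sum.inl (i, j, i', j') => X (i, j) * X (i', j') - X (i, j') * X (i', j)
  | Sum.inr (i, j) => AB d e i j - AB d e j i

/-- `x ⊗ y`. -/
def tens (x y : Fin 3 → R) : Fin 3 × Fin 3 → R := fun s => x s.1 * y s.2

/-- The polynomial which describes the open set on which the parametrisation is bijective. -/
def bad (d e : R) (x : Fin 3 → R) : R :=
  x 2 * al d e x 0 * (x 2 ^ 6 + al d e x 0 ^ 3) *
    (d ^ 3 * x 2 ^ 6 * al d e x 0 ^ 6 + (x 2 ^ 6 + al d e x 0 ^ 3) ^ 3)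

/-- `D₁ = U³ + 1`. -/
def pD (U : R) : R := U ^ 3 + 1
/-- `E = σ³ U³ + D₁³`. -/
def pE (s U : R) : R := s ^ 3 * U ^ 3 + pD U ^ 3
/-- The numerator `N` of `n`. -/
def pN (s r U A : R) : R :=
  pD U ^ 4 * U ^ 4 * (A ^ 2 + A) + s ^ 4 * (U ^ 24 + r * U ^ 16 + s ^ 4 * U ^ 8 + 1)
/-- The numerator `P` of `a`. -/
def pP (s r U A : R) : R :=
  A * pD U ^ 2 * U ^ 8 * pE s U ^ 2 + pN s r U A ^ 2 + pN s r U A * pD U * U ^ 4 * pE s U
/-- The denominator `W`. -/
def pW (s U : R) : R := s ^ 4 * U ^ 12 * pE s U ^ 2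
/-- The numerator `M` of `m`. -/
def pM (s r U A : R) : R := s ^ 3 * U ^ 7 * pE s U * pN s r U A + pP s r U A
/-- The second coordinate of `x`. -/
def pX1 (s r U A : R) : R := pP s r U A ^ 2 + s ^ 8 * U ^ 20 * pE s U ^ 4
/-- The parametrisation of `x` (`s ^ 8 = d`, `r ^ 2 = e`). -/
def pX (s r U A : R) : Fin 3 → R :=
  ![pP s r U A * pW s U * U ^ 2 + s ^ 4 * pX1 s r U A + r * (pW s U ^ 2 * U ^ 4),
    pX1 s r U A, pW s U ^ 2 * U ^ 4]
/-- The parametrisation of `y`. -/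
def pY (s r U A : R) : Fin 3 → R :=
  ![pW s U ^ 2, U ^ 8 * pW s U ^ 2 + pM s r U A ^ 2, pM s r U A * pW s U]

end Example

/-- The ring `F_2[e][d]`. -/
abbrev A2 : Type := Polynomial (Polynomial (ZMod 2))

/-- The field `k = F_2(d, e)` of rational functions in two variables. -/
abbrev kk : Type := FractionRing A2

/-- The element `d` of `F_2[e][d]`. -/
noncomputable def dA : A2 := Polynomial.X
/-- The element `e` of `F_2[e][d]`. -/
noncomputable def eA : A2 := Polynomial.C Polynomial.X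

/-- The element `d` of `k`. -/
noncomputable def dk : kk := algebraMap A2 kk dA
/-- The element `e` of `k`. -/
noncomputable def ek : kk := algebraMap A2 kk eA

end Pool.Agent.Work.MP_d5a5f5_ag
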