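import Pool.Agent.Work.MP_d5a5f5_ag.Stmts

/-!
Items ANI and ANI2: anisotropic quadratic forms over `F_2[e][d]` and `F_2[e][d][u]`.
-/

namespace Pool.Agent.Work.MP_d5a5f5_ag

namespace ANIAux

open Polynomial

theorem coeff_form {R : Type*} [CommRing R] {x y : R[X]} {N : ℕ} (hx : x.natDegree ≤ N)
    (hy : y.natDegree ≤ N) : (x ^ 2 + x * y + y ^ 2).coeff (N + N) =
      x.coeff N ^ 2 + x.coeff N * y.coeff N + y.coeff N ^ 2 := by
  rw [coeff_add, coeff_add, sq x, sq y, coeff_mul_add_eq_of_natDegree_le hx hx,
    coeff_mul_add_eq_of_natDegree_le hx hy, coeff_mul_add_eq_of_natDegree_le hy hy]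
  ring

theorem zero_of_coeff {R : Type*} [CommRing R] {x : R[X]} {N : ℕ}
    (h : x.coeff N = 0) (h0 : x.natDegree = N) : x = 0 := by
  rw [← leadingCoeff_eq_zero, leadingCoeff, h0, h]

theorem form_poly (R : Type*) [CommRing R]
    (h : ∀ x y : R, x ^ 2 + x * y + y ^ 2 = 0 → x = 0 ∧ y = 0) (x y : R[X])
    (hxy : x ^ 2 + x * y + y ^ 2 = 0) : x = 0 ∧ y = 0 := by
  rcases le_total x.natDegree y.natDegree with h1 | h1
  · have h2 := coeff_form h1 le_rfl
    rw [hxy, coeff_zero] at h2
    obtain ⟨h3, h4⟩ := h _ _ h2.symm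
    have h5 : y = 0 := zero_of_coeff h4 rfl
    refine ⟨?_, h5⟩
    rw [h5, natDegree_zero, Nat.le_zero] at h1
    rw [h5, natDegree_zero] at h3
    exact zero_of_coeff h3 h1
  · have h2 := coeff_form le_rfl h1
    rw [hxy, coeff_zero] at h2
    obtain ⟨h3, h4⟩ := h _ _ h2.symm
    have h5 : x = 0 := zero_of_coeff h3 rfl
    refine ⟨h5, ?_⟩
    rw [h5, natDegree_zero, Nat.le_zero] at h1
    rw [h5, natDegree_zero] at h4
    exact zero_of_coeff h4 h1

theorem form_zmod : ∀ x y : ZMod 2, x ^ 2 + x * y + y ^ 2 = 0 → x = 0 ∧ y = 0 := by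
  decide

theorem form_A2 (x y : A2) (hxy : x ^ 2 + x * y + y ^ 2 = 0) : x = 0 ∧ y = 0 :=
  form_poly _ (form_poly _ form_zmod) x y hxy

/-- a square is not `X` times a square -/
theorem sq_ne_X_mul_sq {R : Type*} [CommRing R] [IsDomain R] (a b : R[X]) (hb : b ≠ 0)
    (h : a ^ 2 = X * b ^ 2) : False := by
  have h1 : (a ^ 2).natDegree = 2 * a.natDegree := natDegree_pow a 2
  have h2 : (X * b ^ 2 : R[X]).natDegree = 2 * b.natDegree + 1 := by
    rw [natDegree_X_mul (pow_ne_zero 2 hb), natDegree_pow]
  rw [h, h2] at h1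
  omega

end ANIAux

open ANIAux Polynomial in
theorem prfANI : claimANI := by
  intro z x y h
  by_cases hx : x = 0 ∧ y = 0
  · obtain ⟨hx, hy⟩ := hx
    subst hx hy
    refine ⟨?_, rfl, rfl⟩
    have : z ^ 2 = 0 := by rw [h]; ring
    exact pow_eq_zero_iff (two_ne_zero) |>.mp this
  · exfalso
    rcases lt_or_ge x.degree y.degree with h1 | h1
    · -- deg x < deg y
      have hy : y ≠ 0 := by
        rintro rfl
        simp at h1
      have hyy : (eA * y ^ 2).degree = y.degree + y.degree := by
        rw [sq, degree_mul, degree_mul]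
        unfold eA
        rw [degree_C X_ne_zero, zero_add]
      have hyb : y.degree ≠ ⊥ := by rwa [Ne, degree_eq_bot]
      have hxy : (x * y).degree < y.degree + y.degree := by
        rw [degree_mul]
        exact WithBot.add_lt_add_right hyb h1
      have hdx : (dA * x ^ 2).degree < y.degree + y.degree := by
        by_cases hx0 : x = 0
        · subst hx0
          rw [zero_pow two_ne_zero, mul_zero, degree_zero, degree_eq_natDegree hy, ← Nat.cast_add]
          exact WithBot.bot_lt_coe _
        · unfold dA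
          rw [sq, degree_mul, degree_mul, degree_X, degree_eq_natDegree hx0,
            degree_eq_natDegree hy]
          rw [degree_eq_natDegree hx0, degree_eq_natDegree hy] at h1
          norm_cast at h1 ⊢
          omega
      have h2 : (x * y + dA * x ^ 2).degree < (eA * y ^ 2).degree := by
        rw [hyy]
        exact (degree_add_le _ _).trans_lt (max_lt hxy hdx)
      have h3 : (z ^ 2).leadingCoeff = (eA * y ^ 2).leadingCoeff := by
        rw [h, leadingCoeff_add_of_degree_lt h2]
      rw [leadingCoeff_pow, leadingCoeff_mul, leadingCoeff_pow] at h3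
      unfold eA at h3
      rw [leadingCoeff_C] at h3
      exact sq_ne_X_mul_sq _ _ (leadingCoeff_ne_zero.mpr hy) h3
    · have hx0 : x ≠ 0 := by
        rintro rfl
        rw [degree_zero, le_bot_iff, degree_eq_bot] at h1
        exact hx ⟨rfl, h1⟩
      have hd : (dA * x ^ 2).natDegree = 2 * x.natDegree + 1 := by
        unfold dA
        rw [natDegree_X_mul (pow_ne_zero 2 hx0), natDegree_pow]
      have hyn : y.natDegree ≤ x.natDegree := natDegree_le_natDegree h1
      have h2 : (x * y + eA * y ^ 2).natDegree < (dA * x ^ 2).natDegree := by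
        rw [hd]
        refine (natDegree_add_le _ _).trans_lt (max_lt ?_ ?_)
        · exact natDegree_mul_le.trans_lt (by omega)
        · refine natDegree_mul_le.trans_lt ?_
          have h4 : (eA : A2).natDegree = 0 := natDegree_C _
          have h5 := natDegree_pow_le (p := y) (n := 2)
          omega
      have h3 : (z ^ 2).natDegree = 2 * x.natDegree + 1 := by
        rw [h, show x * y + dA * x ^ 2 + eA * y ^ 2 = (x * y + eA * y ^ 2) + dA * x ^ 2 by ring,
          natDegree_add_eq_right_of_natDegree_lt h2, hd]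
      rw [natDegree_pow] at h3
      omega

open ANIAux MvPolynomial in
theorem prfANI2 : claimANI2 := by
  intro n
  refine ⟨fun z x y h => ?_, fun x y h => ?_⟩
  · have h1 : ∀ v : Fin n → A2, eval v z = 0 ∧ eval v x = 0 ∧ eval v y = 0 := by
      intro v
      apply prfANI
      have := congrArg (eval v) h
      simpa using this
    refine ⟨?_, ?_, ?_⟩
    · exact MvPolynomial.funext fun v => by rw [(h1 v).1, map_zero]
    · exact MvPolynomial.funext fun v => by rw [(h1 v).2.1, map_zero]
    · exact MvPolynomial.funext fun v => by rw [(h1 v).2.2, map_zero]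
  · have h1 : ∀ v : Fin n → A2, eval v x = 0 ∧ eval v y = 0 := by
      intro v
      apply form_A2
      have := congrArg (eval v) h
      simpa using this
    refine ⟨?_, ?_⟩
    · exact MvPolynomial.funext fun v => by rw [(h1 v).1, map_zero]
    · exact MvPolynomial.funext fun v => by rw [(h1 v).2, map_zero]

end Pool.Agent.Work.MP_d5a5f5_ag
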