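import Pool.Agent.Work.MP_d5a5f5_ag.Stmts

/-!
BR: the points of `X` are the `x ⊗ y` with `α(x)`, `β(y)` parallel.
-/

namespace Pool.Agent.Work.MP_d5a5f5_ag

open MvPolynomial

theorem prfBR (h : claimAB) : claimBR := by
  intro L _ d e z
  constructor
  · rintro ⟨hz, hF⟩
    obtain ⟨s, hs⟩ : ∃ s, z s ≠ 0 := by
      by_contra hcon
      push Not at hcon
      exact hz (funext hcon)
    obtain ⟨i0, j0⟩ := s
    have hseg : ∀ i j, z (i, j) * z (i0, j0) = z (i, j0) * z (i0, j) := by
      intro i j
      have h1 := hF (Sum.inl (i, j, i0, j0))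
      simp only [Feq, map_sub, map_mul, eval_X] at h1
      exact sub_eq_zero.1 h1
    refine ⟨fun i => z (i, j0), fun j => z (i0, j) / z (i0, j0), ?_, ?_, ?_, ?_⟩
    · intro hx
      exact hs (congrFun hx i0)
    · intro hy
      have h1 := congrFun hy j0
      simp only [Pi.zero_apply, div_self hs] at h1
      exact one_ne_zero h1
    · funext s
      obtain ⟨i, j⟩ := s
      simp only [tens]
      rw [mul_div_assoc', ← hseg i j, mul_div_assoc, div_self hs, mul_one]
    · have hz2 : z = tens (fun i => z (i, j0)) (fun j => z (i0, j) / z (i0, j0)) := by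
        funext s
        obtain ⟨i, j⟩ := s
        simp only [tens]
        rw [mul_div_assoc', ← hseg i j, mul_div_assoc, div_self hs, mul_one]
      intro i j
      have h1 := hF (Sum.inr (i, j))
      simp only [Feq, map_sub] at h1
      have h2 := (h L d e).1 (fun i => z (i, j0)) (fun j => z (i0, j) / z (i0, j0)) i j
      have h3 := (h L d e).1 (fun i => z (i, j0)) (fun j => z (i0, j) / z (i0, j0)) j i
      rw [← hz2] at h2 h3
      rw [← h2, ← h3]
      exact sub_eq_zero.1 h1
  · rintro ⟨x, y, hx, hy, rfl, hp⟩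
    refine ⟨?_, (h L d e).2.2 x y hp⟩
    obtain ⟨i, hi⟩ : ∃ i, x i ≠ 0 := by
      by_contra hcon
      push Not at hcon
      exact hx (funext hcon)
    obtain ⟨j, hj⟩ : ∃ j, y j ≠ 0 := by
      by_contra hcon
      push Not at hcon
      exact hy (funext hcon)
    intro h0
    have h1 := congrFun h0 (i, j)
    simp only [tens, Pi.zero_apply] at h1
    exact mul_ne_zero hi hj h1

end Pool.Agent.Work.MP_d5a5f5_ag
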