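import Pool.Agent.Work.MP_d5a5f5_ag.Stmts

/-!
Items CONE and EX: scaling to `α(x) = β(y)`, and surjectivity of `β`.
-/

namespace Pool.Agent.Work.MP_d5a5f5_ag

open MvPolynomial

namespace ItemCONE

theorem al_smul {R : Type*} [CommRing R] (d e μ : R) (x : Fin 3 → R) :
    al d e (μ • x) = μ ^ 2 • al d e x := by
  funext i
  fin_cases i <;> simp [al] <;> ring

theorem be_smul {R : Type*} [CommRing R] (μ : R) (y : Fin 3 → R) :
    be (μ • y) = μ ^ 2 • be y := by
  funext i
  fin_cases i <;> simp [be] <;> ring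

theorem quad {K : Type} [Field K] [IsAlgClosed K] (b c : K) : ∃ t : K, t ^ 2 + b * t = c := by
  have hd : (Polynomial.X ^ 2 + Polynomial.C b * Polynomial.X + Polynomial.C (-c) :
      Polynomial K).degree = 2 := by
    have h := Polynomial.degree_quadratic (R := K) (a := 1) (b := b) (c := -c) one_ne_zero
    rwa [Polynomial.C_1, one_mul] at h
  obtain ⟨t, ht⟩ := IsAlgClosed.exists_root
    (Polynomial.X ^ 2 + Polynomial.C b * Polynomial.X + Polynomial.C (-c) : Polynomial K)
    (by rw [hd]; norm_num)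
  refine ⟨t, ?_⟩
  rw [Polynomial.IsRoot.def] at ht
  simp only [Polynomial.eval_add, Polynomial.eval_pow, Polynomial.eval_X, Polynomial.eval_mul,
    Polynomial.eval_C] at ht
  linear_combination ht

end ItemCONE

open ItemCONE in
theorem prfCONE (h : claimNZ) : claimCONE := by
  intro K _ _ d e x y hx hy hpar
  obtain ⟨hal, hbe⟩ := h K d e
  have ha : al d e x ≠ 0 := fun h0 => hx (hal x h0)
  have hb : be y ≠ 0 := fun h0 => hy (hbe y h0)
  obtain ⟨j, hj⟩ := Function.ne_iff.1 hb
  rw [Pi.zero_apply] at hj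
  set c : K := al d e x j / be y j with hc
  have hac : al d e x = c • be y := by
    funext i
    rw [Pi.smul_apply, smul_eq_mul, hc, div_mul_eq_mul_div, eq_div_iff hj]
    exact hpar i j
  have hc0 : c ≠ 0 := by
    intro h0
    rw [h0, zero_smul] at hac
    exact ha hac
  obtain ⟨μ, hμ⟩ := IsAlgClosed.exists_pow_nat_eq (c⁻¹) (n := 4) (by norm_num)
  have hμ0 : μ ≠ 0 := by
    intro h0
    rw [h0] at hμ
    have : c⁻¹ ≠ 0 := inv_ne_zero hc0
    apply this
    rw [← hμ]
    ring
  refine ⟨μ • x, μ⁻¹ • y, smul_ne_zero hμ0 hx, smul_ne_zero (inv_ne_zero hμ0) hy, ?_, ?_⟩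
  · rw [al_smul, be_smul, hac, smul_smul]
    congr 1
    have h1 : μ ^ 4 * c = 1 := by rw [hμ, inv_mul_cancel₀ hc0]
    field_simp
    linear_combination h1
  · funext s
    simp only [tens, Pi.smul_apply, smul_eq_mul]
    field_simp

open ItemCONE in
theorem prfEX : claimEX := by
  intro K _ _ _ v
  obtain ⟨y0, hy0⟩ := quad (0 : K) (v 0)
  obtain ⟨u, hu⟩ := quad y0 (v 1 + v 2)
  obtain ⟨y2, hy2⟩ := quad y0 (v 2 + y0 * u)
  have h2 : (2 : K) = 0 := CharTwo.two_eq_zero
  refine ⟨![y0, u + y2, y2], ?_⟩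
  funext i
  fin_cases i
  · simp only [be, Fin.zero_eta, Matrix.cons_val_zero]
    linear_combination hy0
  · simp [be]
    linear_combination hu + hy2 + (v 2 + u * y2) * h2
  · simp [be]
    linear_combination hy2 + (y0 * u) * h2

end Pool.Agent.Work.MP_d5a5f5_ag
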