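import Pool.Agent.Work.MP_d5a5f5_ag.Stmts

/-!
CURVE: a polynomial curve in `X` extends to a morphism from the projective line.
-/

namespace Pool.Agent.Work.MP_d5a5f5_ag

open MvPolynomial

namespace CURVE

/-- evaluation of a homogeneous polynomial at a scaled point -/
theorem aeval_scale {σ k R : Type} [Field k] [CommRing R] [Algebra k R]
    (F : MvPolynomial σ k) (m : ℕ) (hF : F.IsHomogeneous m) (g : R) (Ψ : σ → R) :
    aeval (fun s => g * Ψ s) F = g ^ m * aeval Ψ F := by
  rw [MvPolynomial.aeval_def, MvPolynomial.aeval_def, MvPolynomial.eval₂_eq,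
    MvPolynomial.eval₂_eq, Finset.mul_sum]
  refine Finset.sum_congr rfl fun d hd => ?_
  have hd' : ∑ i ∈ d.support, d i = m := by
    have := hF (mem_support_iff.mp hd)
    rw [Finsupp.weight_apply] at this
    simpa [Finsupp.sum] using this
  have : ∏ i ∈ d.support, (g * Ψ i) ^ d i = g ^ m * ∏ i ∈ d.support, Ψ i ^ d i := by
    simp_rw [mul_pow]
    rw [Finset.prod_mul_distrib, Finset.prod_pow_eq_pow_sum, hd']
  rw [this]
  ring

/-- the homogenisation -/
noncomputable def hom {K : Type} [Field K] (D : ℕ) (P : Polynomial K) : MvPolynomial (Fin 2) K :=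
  ∑ j ∈ Finset.range (D + 1), C (P.coeff j) * (X 1 ^ j * X 0 ^ (D - j))

theorem hom_homog {K : Type} [Field K] (D : ℕ) (P : Polynomial K) :
    (hom D P).IsHomogeneous D := by
  apply MvPolynomial.IsHomogeneous.sum
  intro j hj
  have hj' : j ≤ D := Nat.lt_succ_iff.mp (Finset.mem_range.mp hj)
  have h1 : (X 1 ^ j * X 0 ^ (D - j) : MvPolynomial (Fin 2) K).IsHomogeneous (j + (D - j)) := by
    apply MvPolynomial.IsHomogeneous.mul
    · simpa using (MvPolynomial.isHomogeneous_X K (1 : Fin 2)).pow j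
    · simpa using (MvPolynomial.isHomogeneous_X K (0 : Fin 2)).pow (D - j)
  have h2 := (MvPolynomial.isHomogeneous_C (Fin 2) (P.coeff j)).mul h1
  have h3 : 0 + (j + (D - j)) = D := by omega
  rwa [h3] at h2

theorem eval_hom {K : Type} [Field K] (D : ℕ) (P : Polynomial K) (hP : P.natDegree ≤ D)
    (w : Fin 2 → K) (hw : w 0 ≠ 0) :
    eval w (hom D P) = w 0 ^ D * P.eval (w 1 / w 0) := by
  rw [Polynomial.eval_eq_sum_range' (Nat.lt_succ_of_le hP), hom, map_sum, Finset.mul_sum]
  refine Finset.sum_congr rfl fun j hj => ?_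
  have hj' : j ≤ D := Nat.lt_succ_iff.mp (Finset.mem_range.mp hj)
  simp only [map_mul, map_pow, eval_C, eval_X]
  have : w 0 ^ D = w 0 ^ j * w 0 ^ (D - j) := by
    rw [← pow_add]; congr 1; omega
  rw [this, div_pow]
  field_simp

theorem eval_hom_zero {K : Type} [Field K] (D : ℕ) (P : Polynomial K)
    (w : Fin 2 → K) (hw : w 0 = 0) :
    eval w (hom D P) = w 1 ^ D * P.coeff D := by
  rw [hom, map_sum, Finset.sum_eq_single D]
  · simp [mul_comm]
  · intro j hj hne
    have hj' : j ≤ D := Nat.lt_succ_iff.mp (Finset.mem_range.mp hj)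
    have : D - j ≠ 0 := by omega
    simp [hw, this]
  · intro h
    exact absurd (Finset.mem_range.mpr (Nat.lt_succ_self D)) h

theorem algMap_eval {k K : Type} [Field k] [Field K] [Algebra k K] (w : Fin 2 → K) :
    (eval w).comp (algebraMap k (MvPolynomial (Fin 2) K)) = algebraMap k K := by
  ext x
  rw [RingHom.comp_apply, MvPolynomial.algebraMap_apply, MvPolynomial.eval_C]

theorem algMap_eval' {k K : Type} [Field k] [Field K] [Algebra k K] (w : K) :
    (Polynomial.evalRingHom w).comp (algebraMap k (Polynomial K)) = algebraMap k K := by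
  ext x
  rw [RingHom.comp_apply, Polynomial.algebraMap_apply, Polynomial.coe_evalRingHom,
    Polynomial.eval_C]

theorem main {σ ι k K : Type} [Field k] [Field K] [Infinite K] [Algebra k K] [Fintype σ]
    (F : ι → MvPolynomial σ k) (hF : ∀ i, ∃ m, (F i).IsHomogeneous m)
    (Φ : σ → Polynomial K) (hΦ : ∀ i, aeval Φ (F i) = 0)
    (p q : σ → K) (t u c c' : K) (hp : p ≠ 0) (hq : q ≠ 0)
    (hc : c ≠ 0) (hc' : c' ≠ 0) (ht : (fun s => (Φ s).eval t) = c • p)
    (hu : (fun s => (Φ s).eval u) = c' • q) :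
    ∃ (D : ℕ) (φ : σ → MvPolynomial (Fin 2) K),
    (∀ s, (φ s).IsHomogeneous D) ∧
    (∀ w : Fin 2 → K, w ≠ 0 → ∃ s, eval w (φ s) ≠ 0) ∧
    (∀ i, aeval φ (F i) = 0) ∧
    (∃ w : Fin 2 → K, w ≠ 0 ∧ ∃ c : K, c ≠ 0 ∧
      (fun s => eval w (φ s)) = c • p) ∧
    (∃ w : Fin 2 → K, w ≠ 0 ∧ ∃ c : K, c ≠ 0 ∧
      (fun s => eval w (φ s)) = c • q) := by
  classical
  -- divide by the gcd
  obtain ⟨g, hg⟩ := (IsPrincipalIdealRing.principal (Ideal.span (Set.range Φ))).principal
  have hΨ : ∀ s, ∃ r, g * r = Φ s := by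
    intro s
    have : Φ s ∈ Ideal.span (Set.range Φ) := Ideal.subset_span ⟨s, rfl⟩
    rw [hg] at this
    obtain ⟨r, hr⟩ := Ideal.mem_span_singleton'.mp this
    exact ⟨r, by rw [mul_comm]; exact hr⟩
  choose Ψ hΨ using hΨ
  have hgm : g ∈ Ideal.span (Set.range Φ) := by
    rw [hg]; exact Ideal.mem_span_singleton_self g
  obtain ⟨a, ha⟩ := (Ideal.mem_span_range_iff_exists_fun).mp hgm
  have hgt : g.eval t ≠ 0 := by
    intro h0
    have hpz : p = 0 := by
      funext s
      have h1 := congrFun ht s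
      simp only [← hΨ s, Polynomial.eval_mul, h0, zero_mul, Pi.smul_apply, smul_eq_mul] at h1
      rcases mul_eq_zero.mp h1.symm with h2 | h2
      · exact absurd h2 hc
      · exact h2
    exact hp hpz
  have hgu : g.eval u ≠ 0 := by
    intro h0
    have hpz : q = 0 := by
      funext s
      have h1 := congrFun hu s
      simp only [← hΨ s, Polynomial.eval_mul, h0, zero_mul, Pi.smul_apply, smul_eq_mul] at h1
      rcases mul_eq_zero.mp h1.symm with h2 | h2
      · exact absurd h2 hc'
      · exact h2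
    exact hq hpz
  have hg0 : g ≠ 0 := by
    rintro rfl
    simp at hgt
  have hone : ∑ s, a s * Ψ s = 1 := by
    have h1 : g * ∑ s, a s * Ψ s = g * 1 := by
      rw [Finset.mul_sum, mul_one]
      conv_rhs => rw [← ha]
      refine Finset.sum_congr rfl fun s _ => ?_
      rw [← hΨ s]; ring
    exact mul_left_cancel₀ hg0 h1
  have hnz : ∀ x : K, ∃ s, (Ψ s).eval x ≠ 0 := by
    intro x
    by_contra hcon
    push Not at hcon
    have h1 := congrArg (Polynomial.eval x) hone
    rw [Polynomial.eval_finsetSum] at h1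
    simp [hcon] at h1
  have hFΨ : ∀ i, aeval Ψ (F i) = 0 := by
    intro i
    obtain ⟨m, hm⟩ := hF i
    have h1 := hΦ i
    have h2 : Φ = fun s => g * Ψ s := by funext s; exact (hΨ s).symm
    rw [h2, aeval_scale (F i) m hm g Ψ] at h1
    rcases mul_eq_zero.mp h1 with h3 | h3
    · exact absurd h3 (pow_ne_zero _ hg0)
    · exact h3
  set D := Finset.univ.sup (fun s => (Ψ s).natDegree) with hD
  have hdeg : ∀ s, (Ψ s).natDegree ≤ D := fun s =>
    Finset.le_sup (f := fun s => (Ψ s).natDegree) (Finset.mem_univ s)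
  obtain ⟨s0, hs0⟩ := hnz t
  have hlead : ∃ s, (Ψ s).coeff D ≠ 0 := by
    rcases Nat.eq_zero_or_pos D with h0 | h0
    · refine ⟨s0, ?_⟩
      intro h
      apply hs0
      have h1 : (Ψ s0).natDegree ≤ 0 := by rw [← h0]; exact hdeg s0
      rw [Polynomial.eq_C_of_natDegree_le_zero h1]
      rw [h0] at h
      simp [h]
    · have hne : (Finset.univ : Finset σ).Nonempty := ⟨s0, Finset.mem_univ _⟩
      obtain ⟨s, -, hs⟩ := Finset.exists_mem_eq_sup Finset.univ hne (fun s => (Ψ s).natDegree)
      refine ⟨s, ?_⟩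
      rw [hD, hs]
      intro h
      have h1 : Ψ s = 0 := by
        rw [← Polynomial.leadingCoeff_eq_zero]; exact h
      have : D = 0 := by rw [hD, hs, h1]; simp
      omega
  refine ⟨D, fun s => hom D (Ψ s), fun s => hom_homog D _, ?_, ?_, ?_, ?_⟩
  · intro w hw
    by_cases h0 : w 0 = 0
    · obtain ⟨s, hs⟩ := hlead
      refine ⟨s, ?_⟩
      rw [eval_hom_zero D _ w h0]
      have h1 : w 1 ≠ 0 := by
        intro h1
        apply hw
        funext i
        fin_cases i
        · exact h0
        · exact h1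
      exact mul_ne_zero (pow_ne_zero _ h1) hs
    · obtain ⟨s, hs⟩ := hnz (w 1 / w 0)
      refine ⟨s, ?_⟩
      rw [eval_hom D _ (hdeg s) w h0]
      exact mul_ne_zero (pow_ne_zero _ h0) hs
  · intro i
    have key : (X 0 : MvPolynomial (Fin 2) K) * aeval (fun s => hom D (Ψ s)) (F i) = 0 := by
      apply MvPolynomial.funext
      intro w
      rw [map_mul, eval_X, map_zero]
      by_cases h0 : w 0 = 0
      · rw [h0, zero_mul]
      · have h1 : eval w (aeval (fun s => hom D (Ψ s)) (F i)) =
            aeval (fun s => w 0 ^ D * (Ψ s).eval (w 1 / w 0)) (F i) := by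
          rw [MvPolynomial.aeval_def, MvPolynomial.aeval_def, MvPolynomial.hom_eval₂]
          congr 1
          · exact algMap_eval w
          · funext s
            exact eval_hom D _ (hdeg s) w h0
        obtain ⟨m, hm⟩ := hF i
        have h2 : aeval (fun s => (Ψ s).eval (w 1 / w 0)) (F i) = 0 := by
          have h3 := congrArg (Polynomial.eval (w 1 / w 0)) (hFΨ i)
          rw [MvPolynomial.aeval_def] at h3 ⊢
          rw [← Polynomial.coe_evalRingHom, MvPolynomial.hom_eval₂] at h3
          rw [Polynomial.coe_evalRingHom, Polynomial.eval_zero] at h3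
          rw [← h3]
          rw [algMap_eval']
        rw [h1, aeval_scale (F i) m hm (w 0 ^ D) (fun s => (Ψ s).eval (w 1 / w 0)), h2]
        simp
    rcases mul_eq_zero.mp key with h | h
    · exact absurd h (MvPolynomial.X_ne_zero 0)
    · exact h
  · refine ⟨![1, t], ?_, (g.eval t)⁻¹ * c, mul_ne_zero (inv_ne_zero hgt) hc, ?_⟩
    · intro h
      have := congrFun h 0
      simp at this
    · funext s
      rw [eval_hom D _ (hdeg s) _ (by simp)]
      have h1 := congrFun ht s
      simp only [← hΨ s, Polynomial.eval_mul, Pi.smul_apply, smul_eq_mul] at h1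
      simp only [Pi.smul_apply, smul_eq_mul, Matrix.cons_val_zero, Matrix.cons_val_one, one_pow,
        div_one, one_mul]
      rw [mul_assoc, ← h1]
      field_simp
  · refine ⟨![1, u], ?_, (g.eval u)⁻¹ * c', mul_ne_zero (inv_ne_zero hgu) hc', ?_⟩
    · intro h
      have := congrFun h 0
      simp at this
    · funext s
      rw [eval_hom D _ (hdeg s) _ (by simp)]
      have h1 := congrFun hu s
      simp only [← hΨ s, Polynomial.eval_mul, Pi.smul_apply, smul_eq_mul] at h1
      simp only [Pi.smul_apply, smul_eq_mul, Matrix.cons_val_zero, Matrix.cons_val_one, one_pow,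
        div_one, one_mul]
      rw [mul_assoc, ← h1]
      field_simp

end CURVE

theorem prfCURVE : claimCURVE := by
  intro σ ι k _ _ F hF Φ hΦ p q t u c c' hp hq hc hc' ht hu
  exact CURVE.main F hF Φ hΦ p q t u c c' hp hq hc hc' ht hu

end Pool.Agent.Work.MP_d5a5f5_ag
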