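import Pool.Agent.Work.MP_d5a5f5_ag.Stmts

/-! Item `DEN`: functions on `α(x) = β(y)` which vanish on a nonempty open set given by a
polynomial in `x` vanish. Proof: a tower of three quadratic extensions, with norms and traces. -/

namespace Pool.Agent.Work.MP_d5a5f5_ag

open MvPolynomial

namespace ItemDEN

variable {S K : Type} [Field K]

/-- a function in `F` which vanishes on `B` vanishes -/
def Dn (F : Subring (S → K)) (B : Set S) : Prop :=
  ∀ h ∈ F, (∀ s ∈ B, h s = 0) → ∀ s, h s = 0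

/-- the double covering `t² + α t + β = 0` -/
def Cv (α β : S → K) : Type := {p : S × K // p.2 ^ 2 + α p.1 * p.2 + β p.1 = 0}

/-- the functions `h₀ + h₁ t` on the double covering -/
def ext (F : Subring (S → K)) (α β : S → K) (hα : α ∈ F) (hβ : β ∈ F) :
    Subring (Cv α β → K) where
  carrier := {h | ∃ h0 ∈ F, ∃ h1 ∈ F, ∀ p, h p = h0 p.1.1 + h1 p.1.1 * p.1.2}
  mul_mem' := by
    rintro f g ⟨f0, mf0, f1, mf1, hf⟩ ⟨g0, mg0, g1, mg1, hg⟩
    refine ⟨f0 * g0 - f1 * g1 * β, ?_, f0 * g1 + f1 * g0 - f1 * g1 * α, ?_, ?_⟩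
    · exact F.sub_mem (F.mul_mem mf0 mg0) (F.mul_mem (F.mul_mem mf1 mg1) hβ)
    · exact F.sub_mem (F.add_mem (F.mul_mem mf0 mg1) (F.mul_mem mf1 mg0))
        (F.mul_mem (F.mul_mem mf1 mg1) hα)
    · intro p
      have h := p.2
      simp only [Pi.mul_apply, Pi.sub_apply, Pi.add_apply, hf, hg]
      linear_combination (f1 p.1.1 * g1 p.1.1) * h
  one_mem' := ⟨1, F.one_mem, 0, F.zero_mem, fun p => by simp⟩
  add_mem' := by
    rintro f g ⟨f0, mf0, f1, mf1, hf⟩ ⟨g0, mg0, g1, mg1, hg⟩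
    refine ⟨f0 + g0, F.add_mem mf0 mg0, f1 + g1, F.add_mem mf1 mg1, fun p => ?_⟩
    simp only [Pi.add_apply, hf, hg]
    ring
  zero_mem' := ⟨0, F.zero_mem, 0, F.zero_mem, fun p => by simp⟩
  neg_mem' := by
    rintro f ⟨f0, mf0, f1, mf1, hf⟩
    refine ⟨-f0, F.neg_mem mf0, -f1, F.neg_mem mf1, fun p => ?_⟩
    simp only [Pi.neg_apply, hf]
    ring

theorem ext_pull (F : Subring (S → K)) (α β : S → K) (hα : α ∈ F) (hβ : β ∈ F) (h : S → K)
    (hh : h ∈ F) : (fun p : Cv α β => h p.1.1) ∈ ext F α β hα hβ :=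
  ⟨h, hh, 0, F.zero_mem, fun p => by simp⟩

theorem ext_t (F : Subring (S → K)) (α β : S → K) (hα : α ∈ F) (hβ : β ∈ F) :
    (fun p : Cv α β => p.1.2) ∈ ext F α β hα hβ :=
  ⟨0, F.zero_mem, 1, F.one_mem, fun p => by simp⟩

theorem root [IsAlgClosed K] (a b : K) : ∃ t : K, t ^ 2 + a * t + b = 0 := by
  obtain ⟨t, ht⟩ := IsAlgClosed.exists_root
    (Polynomial.X ^ 2 + Polynomial.C a * Polynomial.X + Polynomial.C b : Polynomial K) (by
      have : (Polynomial.X ^ 2 + Polynomial.C a * Polynomial.X + Polynomial.C b :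
          Polynomial K).degree = 2 := by compute_degree!
      rw [this]
      decide)
  refine ⟨t, ?_⟩
  simpa [Polynomial.IsRoot] using ht

theorem step [IsAlgClosed K] (F : Subring (S → K)) (B : Set S) (α β : S → K) (hα : α ∈ F)
    (hβ : β ∈ F) (hF : Dn F B) : Dn (ext F α β hα hβ) {p : Cv α β | p.1.1 ∈ B} := by
  rintro h ⟨h0, m0, h1, m1, hh⟩ hB p
  have hTr : ∀ s, (h0 + h0 - α * h1) s = 0 := by
    refine hF _ (F.sub_mem (F.add_mem m0 m0) (F.mul_mem hα m1)) ?_
    intro s hs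
    obtain ⟨t, ht⟩ := root (α s) (β s)
    have e1 := (hh ⟨(s, t), ht⟩).symm.trans (hB ⟨(s, t), ht⟩ hs)
    have ht' : (-α s - t) ^ 2 + α s * (-α s - t) + β s = 0 := by linear_combination ht
    have e2 := (hh ⟨(s, -α s - t), ht'⟩).symm.trans (hB ⟨(s, -α s - t), ht'⟩ hs)
    simp only at e1 e2
    simp only [Pi.sub_apply, Pi.add_apply, Pi.mul_apply]
    linear_combination e1 + e2
  have hN : ∀ s, (h0 * h0 - α * h0 * h1 + β * h1 * h1) s = 0 := by
    refine hF _ (F.add_mem (F.sub_mem (F.mul_mem m0 m0) (F.mul_mem (F.mul_mem hα m0) m1))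
      (F.mul_mem (F.mul_mem hβ m1) m1)) ?_
    intro s hs
    obtain ⟨t, ht⟩ := root (α s) (β s)
    have e1 := (hh ⟨(s, t), ht⟩).symm.trans (hB ⟨(s, t), ht⟩ hs)
    simp only at e1
    simp only [Pi.sub_apply, Pi.add_apply, Pi.mul_apply]
    linear_combination (h0 s + h1 s * (-α s - t)) * e1 + h1 s * h1 s * ht
  have hp := p.2
  have e1 := hTr p.1.1
  have e2 := hN p.1.1
  simp only [Pi.sub_apply, Pi.add_apply, Pi.mul_apply] at e1 e2
  have : (h p) ^ 2 = 0 := by
    rw [hh]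
    linear_combination (h0 p.1.1 + h1 p.1.1 * p.1.2) * e1 - e2 + h1 p.1.1 * h1 p.1.1 * hp
  exact pow_eq_zero_iff (two_ne_zero) |>.mp this

/-- polynomial functions -/
noncomputable def F0 (K : Type) [Field K] : Subring ((Fin 3 → K) → K) :=
  (RingHom.pi (fun x : Fin 3 → K => (eval x : MvPolynomial (Fin 3) K →+* K))).range

theorem mem_F0 {K : Type} [Field K] (f : MvPolynomial (Fin 3) K) : (fun x => eval x f) ∈ F0 K :=
  ⟨f, rfl⟩

theorem dn0 {K : Type} [Field K] [IsAlgClosed K] (b : MvPolynomial (Fin 3) K) (hb : b ≠ 0) :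
    Dn (F0 K) {x | eval x b ≠ 0} := by
  rintro h ⟨f, rfl⟩ hB s
  have : f * b = 0 := by
    apply MvPolynomial.funext
    intro x
    rw [map_mul, map_zero]
    by_cases hx : eval x b = 0
    · rw [hx, mul_zero]
    · have := hB x hx
      change eval x f = 0 at this
      rw [this, zero_mul]
  rcases mul_eq_zero.mp this with h | h
  · rw [h]; simp
  · exact absurd h hb

end ItemDEN

open ItemDEN in
theorem prfDEN : claimDEN := by
  intro K _ _ _ d e H b hb hH x y hxy
  have two0 : (2 : K) = 0 := CharTwo.two_eq_zero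
  -- level 0
  have m0 : (fun x : Fin 3 → K => al d e x 0) ∈ F0 K := by
    have := mem_F0 (K := K) (X 0 ^ 2 + X 1 * X 2 + C d * X 1 ^ 2 + C e * X 2 ^ 2)
    simpa [al] using this
  have m1 : (fun x : Fin 3 → K => al d e x 1) ∈ F0 K := by
    have := mem_F0 (K := K) (X 1 ^ 2 + X 0 * X 2)
    simpa [al] using this
  have m2 : (fun x : Fin 3 → K => al d e x 2) ∈ F0 K := by
    have := mem_F0 (K := K) (X 2 ^ 2)
    simpa [al] using this
  have mx : ∀ i, (fun x : Fin 3 → K => x i) ∈ F0 K := by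
    intro i
    have := mem_F0 (K := K) (X i)
    simpa using this
  have mc : ∀ c : K, (fun _ : Fin 3 → K => c) ∈ F0 K := by
    intro c
    have := mem_F0 (K := K) (C c)
    simpa using this
  have D0 := dn0 b hb
  -- level 1
  have ma1 : (fun _ : Fin 3 → K => (0 : K)) ∈ F0 K := mc 0
  have mb1 : (fun x : Fin 3 → K => -al d e x 0) ∈ F0 K := (F0 K).neg_mem m0
  have D1 := step (F0 K) _ _ _ ma1 mb1 D0
  have pull1 := ext_pull (F0 K) _ _ ma1 mb1
  have t1 := ext_t (F0 K) _ _ ma1 mb1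
  set F1 := ext (F0 K) _ _ ma1 mb1 with hF1
  -- level 2
  have mb2 := F1.neg_mem (F1.add_mem (pull1 _ m1) (pull1 _ m2))
  have D2 := step F1 _ _ _ t1 mb2 D1
  have pull2 := ext_pull F1 _ _ t1 mb2
  have t2 := ext_t F1 _ _ t1 mb2
  set F2 := ext F1 _ _ t1 mb2 with hF2
  -- level 3
  have mb3 := F2.sub_mem (F2.mul_mem (pull2 _ t1) t2) (pull2 _ (pull1 _ m2))
  have D3 := step F2 _ _ _ (pull2 _ t1) mb3 D2
  have pull3 := ext_pull F2 _ _ (pull2 _ t1) mb3
  have t3 := ext_t F2 _ _ (pull2 _ t1) mb3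
  set F3 := ext F2 _ _ (pull2 _ t1) mb3 with hF3
  -- the function H
  have hmem : ∀ G : MvPolynomial (Fin 3 ⊕ Fin 3) K,
      (fun p => eval (Sum.elim (fun i => p.1.1.1.1.1.1 i)
        ![p.1.1.1.1.1.2, p.1.1.1.2 + p.1.2, p.1.2]) G) ∈ F3 := by
    intro G
    induction G using MvPolynomial.induction_on with
    | C a =>
      have := pull3 _ (pull2 _ (pull1 _ (mc a)))
      simpa using this
    | add p q hp hq =>
      convert F3.add_mem hp hq using 1
      ext p
      simp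
    | mul_X p i hp =>
      have hi : (fun p => eval (Sum.elim (fun i => p.1.1.1.1.1.1 i)
        ![p.1.1.1.1.1.2, p.1.1.1.2 + p.1.2, p.1.2]) (X i : MvPolynomial (Fin 3 ⊕ Fin 3) K)) ∈ F3 := by
        rcases i with i | i
        · have := pull3 _ (pull2 _ (pull1 _ (mx i)))
          simpa using this
        · fin_cases i
          · have := pull3 _ (pull2 _ t1)
            simpa using this
          · convert F3.add_mem (pull3 _ t2) t3 using 1
            ext p
            simp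
          · simpa using t3
      convert F3.mul_mem hp hi using 1
      ext p
      simp
  have key := D3 _ (hmem H) ?_
  · have e0 : al d e x 0 = y 0 ^ 2 := by rw [hxy]; rfl
    have e1 : al d e x 1 = y 1 ^ 2 + y 0 * y 2 := by rw [hxy]; rfl
    have e2 : al d e x 2 = y 2 ^ 2 + y 0 * y 1 := by rw [hxy]; rfl
    have q1 : (y 0) ^ 2 + 0 * y 0 + -al d e x 0 = 0 := by rw [e0]; ring
    have q2 : (y 1 + y 2) ^ 2 + y 0 * (y 1 + y 2) + -(al d e x 1 + al d e x 2) = 0 := by
      rw [e1, e2]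
      linear_combination (y 1 * y 2) * two0
    have q3 : (y 2) ^ 2 + y 0 * (y 2) + (y 0 * (y 1 + y 2) - al d e x 2) = 0 := by
      rw [e2]
      linear_combination (y 0 * y 2) * two0
    have h := key ⟨(⟨(⟨(x, y 0), q1⟩, y 1 + y 2), q2⟩, y 2), q3⟩
    simp only at h
    convert h using 2
    congr 1
    ext i
    rcases i with i | i
    · rfl
    · fin_cases i
      · rfl
      · simp only [Sum.elim_inr]
        show y 1 = y 1 + y 2 + y 2
        linear_combination (-y 2) * two0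
      · rfl
  · rintro ⟨⟨⟨⟨⟨⟨x', y0⟩, p1⟩, u⟩, p2⟩, y2⟩, p3⟩ hx
    simp only at p1 p2 p3
    change y0 ^ 2 + 0 * y0 + -al d e x' 0 = 0 at p1
    change u ^ 2 + y0 * u + -(al d e x' 1 + al d e x' 2) = 0 at p2
    change y2 ^ 2 + y0 * y2 + (y0 * u - al d e x' 2) = 0 at p3
    refine hH x' ![y0, u + y2, y2] ?_ hx
    ext i
    fin_cases i
    · show al d e x' 0 = y0 ^ 2
      linear_combination -p1
    · show al d e x' 1 = (u + y2) ^ 2 + y0 * y2
      linear_combination -p2 - p3 + (y0 * u - al d e x' 2 - u * y2) * two0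
    · show al d e x' 2 = y2 ^ 2 + y0 * (u + y2)
      linear_combination -p3

end Pool.Agent.Work.MP_d5a5f5_ag
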