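import Pool.Agent.Work.MP_d5a5f5_ag.Stmts

/-! Item `GOOD`: the parametrisation hits every point of the open set `bad ≠ 0`. -/

namespace Pool.Agent.Work.MP_d5a5f5_ag

open MvPolynomial

namespace ItemGOOD

/-- the computation in the affine coordinates `a, b, p, m, t = U ^ 8` -/
theorem core (K : Type) [Field K] [CharP K 2] (s r a b p m U T : K)
    (hT : U ^ 8 * T = 1)
    (h1 : b = a ^ 2 + T) (h3 : p = U ^ 8 + m ^ 2)
    (h2 : U ^ 8 * (b ^ 2 + a + s ^ 4 * b + r) = p ^ 2 + m)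
    (hD : pD U ≠ 0) :
    ∃ A : K, pP s r U A = a * pW s U * U ^ 2 ∧ pM s r U A = m * pW s U ∧
      pX1 s r U A = b * pW s U ^ 2 * U ^ 4 := by
  subst h1 h3
  obtain ⟨D, hDdef⟩ : ∃ D, D = pD U := ⟨_, rfl⟩
  obtain ⟨E, hEdef⟩ : ∃ E, E = pE s U := ⟨_, rfl⟩
  rw [← hDdef] at hD
  have hD2 : D ^ 2 = U ^ 6 + 1 := by
    rw [hDdef, pD]
    linear_combination (norm := (ring_nf; try reduce_mod_char!)) (0 : K) * hT
  have hE' : E = s ^ 3 * U ^ 3 + D ^ 3 := by rw [hEdef, hDdef]; rfl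
  obtain ⟨n, hn⟩ : ∃ n, n = m + U ^ 2 * a := ⟨_, rfl⟩
  obtain ⟨C, hC⟩ : ∃ C, C = r * U ^ 8 + U ^ 16 + T + s ^ 4 := ⟨_, rfl⟩
  obtain ⟨A0, hA0⟩ : ∃ A0, A0 = s ^ 4 * U ^ 6 * a / D ^ 2 := ⟨_, rfl⟩
  obtain ⟨ρ, hρ⟩ : ∃ ρ, ρ = s * U / D := ⟨_, rfl⟩
  have eρ : ρ * D = s * U := by rw [hρ]; field_simp
  have eA0 : A0 * D ^ 2 = s ^ 4 * U ^ 6 * a := by rw [hA0]; field_simp
  have main : s ^ 4 * U ^ 8 * a ^ 2 + U ^ 2 * a * D ^ 2 = n ^ 4 + n + C := by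
    rw [hn, hC]
    linear_combination (norm := (ring_nf; try reduce_mod_char!))
      h2 + (T + s ^ 4) * hT + (U ^ 2 * a) * hD2
  have main2 : A0 ^ 2 + A0 = ρ ^ 4 * (n ^ 4 + n + C) := by
    have hD4 : D ^ 4 ≠ 0 := pow_ne_zero _ hD
    apply mul_right_cancel₀ hD4
    rw [← main]
    have : ρ ^ 4 * (s ^ 4 * U ^ 8 * a ^ 2 + U ^ 2 * a * D ^ 2) * D ^ 4
        = (ρ * D) ^ 4 * (s ^ 4 * U ^ 8 * a ^ 2 + U ^ 2 * a * D ^ 2) := by ring
    rw [this, eρ]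
    have : (A0 ^ 2 + A0) * D ^ 4 = (A0 * D ^ 2) ^ 2 + (A0 * D ^ 2) * D ^ 2 := by ring
    rw [this, eA0]
    ring
  obtain ⟨A, hA⟩ : ∃ A, A = A0 + ρ ^ 2 * n ^ 2 + ρ * n := ⟨_, rfl⟩
  have hAA : A ^ 2 + A = ρ ^ 4 * (n + C) + ρ * n := by
    rw [hA]
    linear_combination (norm := (ring_nf; try reduce_mod_char!)) main2
  have e4 : ρ ^ 4 * D ^ 4 = s ^ 4 * U ^ 4 := by
    have : ρ ^ 4 * D ^ 4 = (ρ * D) ^ 4 := by ring
    rw [this, eρ]; ring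
  have e2 : ρ ^ 2 * D ^ 2 = s ^ 2 * U ^ 2 := by
    have : ρ ^ 2 * D ^ 2 = (ρ * D) ^ 2 := by ring
    rw [this, eρ]; ring
  have hN : pN s r U A = s * U ^ 5 * E * n := by
    rw [pN, ← hDdef, hE', hAA]
    have e8 : U ^ 8 * C = r * U ^ 16 + U ^ 24 + 1 + s ^ 4 * U ^ 8 := by
      rw [hC]; linear_combination hT
    linear_combination (norm := (ring_nf; try reduce_mod_char!))
      (U ^ 4 * (n + C)) * e4 + (D ^ 3 * U ^ 4 * n) * eρ + s ^ 4 * e8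
  have hP : pP s r U A = a * pW s U * U ^ 2 := by
    rw [pP, hN, pW, ← hDdef, ← hEdef, hA]
    linear_combination (norm := (ring_nf; try reduce_mod_char!))
      (U ^ 8 * E ^ 2) * eA0 + (n ^ 2 * U ^ 8 * E ^ 2) * e2 + (n * D * U ^ 8 * E ^ 2) * eρ
  refine ⟨A, hP, ?_, ?_⟩
  · rw [pM, hN, hP, pW, ← hEdef, hn]
    linear_combination (norm := (ring_nf; try reduce_mod_char!)) (0 : K) * hT
  · rw [pX1, hP, pW, ← hEdef]
    linear_combination (-s ^ 8 * U ^ 20 * E ^ 4) * hT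

end ItemGOOD

open ItemGOOD in
theorem prfGOOD : claimGOOD := by
  intro K _ _ _ s r hs x y hxy hbad
  have q0 : al (s ^ 8) (r ^ 2) x 0 = y 0 ^ 2 := by rw [hxy]; rfl
  have q1 : al (s ^ 8) (r ^ 2) x 1 = y 1 ^ 2 + y 0 * y 2 := by rw [hxy]; rfl
  have q2 : al (s ^ 8) (r ^ 2) x 2 = y 2 ^ 2 + y 0 * y 1 := by rw [hxy]; rfl
  have q0' : x 0 ^ 2 + x 1 * x 2 + s ^ 8 * x 1 ^ 2 + r ^ 2 * x 2 ^ 2 = y 0 ^ 2 := q0
  have q1' : x 1 ^ 2 + x 0 * x 2 = y 1 ^ 2 + y 0 * y 2 := q1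
  have q2' : x 2 ^ 2 = y 2 ^ 2 + y 0 * y 1 := q2
  rw [bad, q0] at hbad
  have hx2 : x 2 ≠ 0 := by
    intro h; apply hbad; rw [h]; ring
  have hy0 : y 0 ≠ 0 := by
    intro h; apply hbad; rw [h]; ring
  have hb1 : x 2 ^ 6 + (y 0 ^ 2) ^ 3 ≠ 0 := by
    intro h; apply hbad; rw [h]; ring
  have hb2 : (s ^ 8) ^ 3 * x 2 ^ 6 * (y 0 ^ 2) ^ 6 + (x 2 ^ 6 + (y 0 ^ 2) ^ 3) ^ 3 ≠ 0 := by
    intro h; apply hbad; rw [h]; ring
  obtain ⟨U, hU⟩ := IsAlgClosed.exists_pow_nat_eq (x 2 ^ 2 / y 0 ^ 2) (n := 8) (by norm_num)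
  have hU8 : U ^ 8 * y 0 ^ 2 = x 2 ^ 2 := by rw [hU]; field_simp
  have hU0 : U ≠ 0 := by
    rintro rfl
    apply hx2
    have : x 2 ^ 2 = 0 := by rw [← hU8]; ring
    exact pow_eq_zero_iff (two_ne_zero) |>.mp this
  -- D ^ 8, E ^ 8
  have hD8 : pD U ^ 8 = U ^ 24 + 1 := by
    rw [pD]
    linear_combination (norm := (ring_nf; try reduce_mod_char!)) (0 : K) * hU8
  have hE8 : pE s U ^ 8 = s ^ 24 * U ^ 24 + (U ^ 24 + 1) ^ 3 := by
    rw [← hD8, pE]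
    linear_combination (norm := (ring_nf; try reduce_mod_char!)) (0 : K) * hU8
  have hD : pD U ≠ 0 := by
    intro h
    apply hb1
    rw [h] at hD8
    have e : x 2 ^ 6 = U ^ 24 * y 0 ^ 6 := by
      have : x 2 ^ 6 = (x 2 ^ 2) ^ 3 := by ring
      rw [this, ← hU8]; ring
    rw [e]
    linear_combination (-y 0 ^ 6) * hD8
  have hE : pE s U ≠ 0 := by
    intro h
    apply hb2
    rw [h] at hE8
    have e : x 2 ^ 6 = U ^ 24 * y 0 ^ 6 := by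
      have : x 2 ^ 6 = (x 2 ^ 2) ^ 3 := by ring
      rw [this, ← hU8]; ring
    rw [e]
    linear_combination (-y 0 ^ 18) * hE8
  have hW : pW s U ≠ 0 := by
    rw [pW]
    exact mul_ne_zero (mul_ne_zero (pow_ne_zero _ hs) (pow_ne_zero _ hU0)) (pow_ne_zero _ hE)
  obtain ⟨A, hP, hM, hX1⟩ := core K s r ((x 0 + s ^ 4 * x 1 + r * x 2) / x 2) (x 1 / x 2)
    (y 1 / y 0) (y 2 / y 0) U (y 0 ^ 2 / x 2 ^ 2)
    (by rw [hU]; field_simp)
    (by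
      field_simp
      rw [← q0']
      linear_combination (norm := (ring_nf; try reduce_mod_char!)) (0 : K) * hU8)
    (by
      rw [hU]
      field_simp
      rw [q2']
      linear_combination (norm := (ring_nf; try reduce_mod_char!)) (0 : K) * hU8)
    (by
      rw [hU]
      field_simp
      linear_combination (norm := (ring_nf; try reduce_mod_char!)) q1')
    hD
  refine ⟨x 2 * y 0 / (pW s U ^ 4 * U ^ 4), U, A, ?_, ?_⟩
  · exact div_ne_zero (mul_ne_zero hx2 hy0) (mul_ne_zero (pow_ne_zero _ hW) (pow_ne_zero _ hU0))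
  · have hX : ∀ i, pX s r U A i * x 2 = pW s U ^ 2 * U ^ 4 * x i := by
      intro i
      fin_cases i
      · show (pP s r U A * pW s U * U ^ 2 + s ^ 4 * pX1 s r U A + r * (pW s U ^ 2 * U ^ 4)) * x 2
          = pW s U ^ 2 * U ^ 4 * x 0
        rw [hP, hX1]
        field_simp
        linear_combination (norm := (ring_nf; try reduce_mod_char!)) (0 : K) * hU8
      · show pX1 s r U A * x 2 = pW s U ^ 2 * U ^ 4 * x 1
        rw [hX1]
        field_simp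
      · show pW s U ^ 2 * U ^ 4 * x 2 = pW s U ^ 2 * U ^ 4 * x 2
        rfl
    have hY : ∀ i, pY s r U A i * y 0 = pW s U ^ 2 * y i := by
      intro i
      fin_cases i
      · show pW s U ^ 2 * y 0 = pW s U ^ 2 * y 0
        rfl
      · show (U ^ 8 * pW s U ^ 2 + pM s r U A ^ 2) * y 0 = pW s U ^ 2 * y 1
        rw [hM, hU]
        field_simp
        rw [q2']
        linear_combination (norm := (ring_nf; try reduce_mod_char!)) (0 : K) * hU8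
      · show (pM s r U A * pW s U) * y 0 = pW s U ^ 2 * y 2
        rw [hM]
        field_simp
    funext ij
    show x ij.1 * y ij.2 = x 2 * y 0 / (pW s U ^ 4 * U ^ 4) * (pX s r U A ij.1 * pY s r U A ij.2)
    have e1 := hX ij.1
    have e2 := hY ij.2
    rw [div_mul_eq_mul_div, eq_div_iff (mul_ne_zero (pow_ne_zero _ hW) (pow_ne_zero _ hU0))]
    have : x 2 * y 0 * (pX s r U A ij.1 * pY s r U A ij.2)
        = (pX s r U A ij.1 * x 2) * (pY s r U A ij.2 * y 0) := by ring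
    rw [this, e1, e2]
    ring

end Pool.Agent.Work.MP_d5a5f5_ag
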