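import Pool.Agent.Work.MP_d5a5f5_ag.Stmts

/-!
Three short claims: the maps `α`, `β` have no zero but zero; base change of the equations; the
values of the quadrics at `x ⊗ y`.
-/

namespace Pool.Agent.Work.MP_d5a5f5_ag

open MvPolynomial

theorem prfNZ : claimNZ := by
  intro L _ _ d e
  constructor
  · intro x hx
    have h0 : x 0 ^ 2 + x 1 * x 2 + d * x 1 ^ 2 + e * x 2 ^ 2 = 0 := congrFun hx 0
    have h1 : x 1 ^ 2 + x 0 * x 2 = 0 := congrFun hx 1
    have h2 : x 2 ^ 2 = 0 := congrFun hx 2
    have e2 : x 2 = 0 := pow_eq_zero_iff (two_ne_zero) |>.1 h2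
    rw [e2, mul_zero, add_zero] at h1
    have e1 : x 1 = 0 := pow_eq_zero_iff (two_ne_zero) |>.1 h1
    rw [e2, e1] at h0
    have h0' : x 0 ^ 2 = 0 := by linear_combination h0
    have e0 : x 0 = 0 := pow_eq_zero_iff (two_ne_zero) |>.1 h0'
    funext i
    fin_cases i
    · exact e0
    · exact e1
    · exact e2
  · intro y hy
    have h0 : y 0 ^ 2 = 0 := congrFun hy 0
    have h1 : y 1 ^ 2 + y 0 * y 2 = 0 := congrFun hy 1
    have h2 : y 2 ^ 2 + y 0 * y 1 = 0 := congrFun hy 2
    have e0 : y 0 = 0 := pow_eq_zero_iff (two_ne_zero) |>.1 h0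
    rw [e0, zero_mul, add_zero] at h1 h2
    have e1 : y 1 = 0 := pow_eq_zero_iff (two_ne_zero) |>.1 h1
    have e2 : y 2 = 0 := pow_eq_zero_iff (two_ne_zero) |>.1 h2
    funext i
    fin_cases i
    · exact e0
    · exact e1
    · exact e2

theorem map_ca {R S : Type} [CommRing R] [CommRing S] (f : R →+* S) (d e : R) (i p q : Fin 3) :
    f (ca d e i p q) = ca (f d) (f e) i p q := by
  fin_cases i <;> fin_cases p <;> fin_cases q <;> simp [ca]

theorem map_cb {R S : Type} [CommRing R] [CommRing S] (f : R →+* S) (j p q : Fin 3) :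
    f (cb j p q) = cb j p q := by
  fin_cases j <;> fin_cases p <;> fin_cases q <;> simp [cb]

theorem prfMAP : claimMAP := by
  intro R S _ _ f d e i
  rcases i with ⟨i, j, i', j'⟩ | ⟨i, j⟩
  · simp [Feq]
  · have h : ∀ i j, map f (AB d e i j) = AB (f d) (f e) i j := by
      intro i j
      simp only [AB, map_sum, map_mul, map_C, map_X, map_ca, map_cb]
    show map f (AB d e i j - AB d e j i) = AB (f d) (f e) i j - AB (f d) (f e) j i
    rw [map_sub, h, h]

theorem al_eq_sum {L : Type} [CommRing L] (d e : L) (x : Fin 3 → L) (i : Fin 3) :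
    al d e x i = ∑ p, ∑ q, ca d e i p q * (x p * x q) := by
  fin_cases i <;> simp [al, ca, Fin.sum_univ_three] <;> ring

theorem be_eq_sum {L : Type} [CommRing L] (y : Fin 3 → L) (j : Fin 3) :
    be y j = ∑ u, ∑ v, cb j u v * (y u * y v) := by
  fin_cases j <;> simp [be, cb, Fin.sum_univ_three] <;> ring

theorem prfAB : claimAB := by
  intro L _ d e
  have key : ∀ (x y : Fin 3 → L) (i j : Fin 3),
      eval (tens x y) (AB d e i j) = al d e x i * be y j := by
    intro x y i j
    rw [al_eq_sum, be_eq_sum]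
    simp only [AB, map_sum, map_mul, eval_C, eval_X, tens]
    rw [Finset.sum_mul]
    refine Finset.sum_congr rfl fun p _ => ?_
    rw [Finset.sum_mul]
    refine Finset.sum_congr rfl fun q _ => ?_
    rw [Finset.mul_sum]
    refine Finset.sum_congr rfl fun u _ => ?_
    rw [Finset.mul_sum]
    refine Finset.sum_congr rfl fun v _ => ?_
    ring
  refine ⟨key, ?_, ?_⟩
  · intro i
    rcases i with ⟨i, j, i', j'⟩ | ⟨i, j⟩
    · exact ((isHomogeneous_X _ _).mul (isHomogeneous_X _ _)).sub
        ((isHomogeneous_X _ _).mul (isHomogeneous_X _ _))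
    · have h : ∀ i j, (AB d e i j).IsHomogeneous 2 := by
        intro i j
        refine IsHomogeneous.sum _ _ _ fun p _ => IsHomogeneous.sum _ _ _ fun q _ =>
          IsHomogeneous.sum _ _ _ fun u _ => IsHomogeneous.sum _ _ _ fun v _ => ?_
        exact (isHomogeneous_C _ _).mul ((isHomogeneous_X _ _).mul (isHomogeneous_X _ _))
      exact (h i j).sub (h j i)
  · intro x y hxy i
    rcases i with ⟨i, j, i', j'⟩ | ⟨i, j⟩
    · simp only [Feq, map_sub, map_mul, eval_X, tens]
      ring
    · show eval (tens x y) (AB d e i j - AB d e j i) = 0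
      rw [map_sub, key, key, hxy i j, sub_self]

end Pool.Agent.Work.MP_d5a5f5_ag
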