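import Pool.Agent.Work.MP_d5a5f5_ag.Stmts

set_option autoImplicit false

/-!
Item TAN: the differential criterion, case analysis.
-/

namespace Pool.Agent.Work.MP_d5a5f5_ag

theorem prfTAN : claimTAN := by
  intro K _ _ d e x y c hx hy hc h v
  have h1 : x 1 ^ 2 + x 0 * x 2 = c * (y 1 ^ 2 + y 0 * y 2) := congrFun h 1
  have h2 : x 2 ^ 2 = c * (y 2 ^ 2 + y 0 * y 1) := congrFun h 2
  by_cases hy0 : y 0 = 0
  · rw [hy0, zero_mul, add_zero] at h1 h2
    by_cases hx2 : x 2 = 0
    · have hy2 : y 2 = 0 := by
        rw [hx2] at h2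
        have h3 : y 2 ^ 2 = 0 := by
          rcases mul_eq_zero.1 (h2.symm.trans (by ring : (0 : K) ^ 2 = 0)) with h4 | h4
          · exact absurd h4 hc
          · exact h4
        exact pow_eq_zero_iff (by norm_num) |>.1 h3
      have hy1 : y 1 ≠ 0 := by
        intro hy1
        apply hy
        funext i
        fin_cases i
        · exact hy0
        · exact hy1
        · exact hy2
      rw [hx2, mul_zero, add_zero] at h1
      have hx1 : x 1 ≠ 0 := by
        intro hx1
        rw [hx1] at h1
        have h3 : c * y 1 ^ 2 = 0 := by rw [← h1]; ring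
        rcases mul_eq_zero.1 h3 with h4 | h4
        · exact hc h4
        · exact hy1 (pow_eq_zero_iff (by norm_num) |>.1 h4)
      refine ⟨![0, 0, v 0 / x 1], ![v 2 / y 1, 0, 0], (v 1 - x 0 * (v 0 / x 1)) / y 1 ^ 2, ?_⟩
      funext i
      fin_cases i
      · simp [be, hx2, hy0, hy2]
        field_simp
      · simp [be, hx2, hy0, hy2]
        field_simp
        ring
      · simp [be, hx2, hy0, hy2]
        field_simp
    · have hy2 : y 2 ≠ 0 := by
        intro hy2
        rw [hy2] at h2
        apply hx2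
        have h3 : x 2 ^ 2 = 0 := by rw [h2]; ring
        exact pow_eq_zero_iff (by norm_num) |>.1 h3
      refine ⟨![(v 1 - v 2 / y 2 ^ 2 * y 1 ^ 2) / x 2, v 0 / x 2, 0], ![0, 0, 0],
        v 2 / y 2 ^ 2, ?_⟩
      funext i
      fin_cases i
      · simp [be, hy0]
        field_simp
      · simp [be, hy0]
        field_simp
        ring
      · simp [be, hy0]
        field_simp
  · refine ⟨![0, 0, 0], ![0, (v 2 - v 0 / y 0 ^ 2 * (y 2 ^ 2 + y 0 * y 1)) / y 0,
      (v 1 - v 0 / y 0 ^ 2 * (y 1 ^ 2 + y 0 * y 2)) / y 0], v 0 / y 0 ^ 2, ?_⟩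
    funext i
    fin_cases i
    · simp [be]
      field_simp
    · simp [be]
      field_simp
      ring
    · simp [be]
      field_simp
      ring

end Pool.Agent.Work.MP_d5a5f5_ag
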