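import Pool.Agent.Work.MP_d5a5f5_ag.Stmts

/-!
TR: the coordinate ring of the cone over `X` has transcendence degree three.
-/

namespace Pool.Agent.Work.MP_d5a5f5_ag

open MvPolynomial

namespace ItemTR

/-- the first coordinate of `α` as a polynomial -/
noncomputable def al0 {K : Type} [Field K] (d e : K) : MvPolynomial (Fin 3) K :=
  X 0 ^ 2 + X 1 * X 2 + C d * X 1 ^ 2 + C e * X 2 ^ 2

lemma eval_al0 {K : Type} [Field K] (d e : K) (v : Fin 3 → K) :
    eval v (al0 d e) = al d e v 0 := by
  simp [al0, al]

lemma al0_ne {K : Type} [Field K] (d e : K) : al0 d e ≠ 0 := by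
  intro h
  have h1 := eval_al0 d e ![1, 0, 0]
  rw [h] at h1
  simp [al] at h1

lemma al_smul {K : Type} [Field K] (d e c : K) (v : Fin 3 → K) :
    al d e (c • v) = c ^ 2 • al d e v := by
  funext i
  fin_cases i
  · simp [al]; ring
  · simp [al]; ring
  · simp [al]; ring

/-- a form in the first column which vanishes on the cone is zero -/
lemma zero_of_van (hAB : claimAB) (hEX : claimEX) {K : Type} [Field K] [IsAlgClosed K]
    [CharP K 2] (d e : K) (Q : MvPolynomial (Fin 3) K)
    (hQ : ∀ z : Fin 3 × Fin 3 → K, (∀ i, eval z (Feq d e i) = 0) →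
      eval z (rename (fun i : Fin 3 => (i, (0 : Fin 3))) Q) = 0) : Q = 0 := by
  have key : ∀ v : Fin 3 → K, eval v (Q * al0 d e) = 0 := by
    intro v
    rw [map_mul, eval_al0]
    by_cases h0 : al d e v 0 = 0
    · rw [h0, mul_zero]
    · obtain ⟨y0, hy0⟩ := IsAlgClosed.exists_pow_nat_eq (al d e v 0) (n := 4) (by norm_num)
      have hy0ne : y0 ≠ 0 := by
        rintro rfl
        apply h0
        rw [← hy0]; norm_num
      obtain ⟨y, hy⟩ := hEX K (al d e (y0⁻¹ • v))
      have hyy : y 0 = y0 := by
        have h1 : be y 0 = y 0 ^ 2 := by simp [be]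
        have h2 : y 0 ^ 2 = y0 ^ 2 := by
          rw [← h1, hy, al_smul]
          simp only [Pi.smul_apply, smul_eq_mul]
          rw [← hy0]
          field_simp
        have h3 : (y 0 - y0) ^ 2 = 0 := by
          have h2K : (2 : K) = 0 := CharTwo.two_eq_zero
          linear_combination h2 + (y0 ^ 2 - y 0 * y0) * h2K
        exact sub_eq_zero.mp (pow_eq_zero_iff (two_ne_zero) |>.mp h3)
      have h4 := hQ (tens (y0⁻¹ • v) y) (by
        apply (hAB K d e).2.2
        intro i j
        rw [hy]
        ring)
      have h5 : eval v Q = 0 := by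
        rw [eval_rename] at h4
        have h6 : (tens (y0⁻¹ • v) y) ∘ (fun i : Fin 3 => (i, (0 : Fin 3))) = v := by
          funext i
          simp only [Function.comp, tens, Pi.smul_apply, smul_eq_mul, hyy]
          field_simp
        rwa [h6] at h4
      rw [h5, zero_mul]
  have h1 : Q * al0 d e = 0 := by
    apply MvPolynomial.funext
    intro v
    rw [key v, map_zero]
  rcases mul_eq_zero.mp h1 with h2 | h2
  · exact h2
  · exact absurd h2 (al0_ne d e)

end ItemTR

open ItemTR in
theorem prfTR (hAB : claimAB) (hEX : claimEX) (hVAN : claimVAN) : claimTR := by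
  intro K _ _ _ s r hs
  apply le_antisymm
  · have h1 : Function.Injective (Ideal.kerLiftAlg (aeval (th s r) :
        MvPolynomial (Fin 3 × Fin 3) K →ₐ[K] MvPolynomial (Fin 3) K)) :=
      Ideal.kerLiftAlg_injective _
    have h2 := _root_.trdeg_le_of_injective _ h1
    refine h2.trans ?_
    rw [MvPolynomial.trdeg_of_isDomain]
    simp
  · let x : Fin 3 → MvPolynomial (Fin 3 × Fin 3) K ⧸
      (RingHom.ker (aeval (th s r) :
        MvPolynomial (Fin 3 × Fin 3) K →ₐ[K] MvPolynomial (Fin 3) K)) :=
      fun i => Ideal.Quotient.mk _ (X (i, 0))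
    have hx : AlgebraicIndependent K x := by
      rw [algebraicIndependent_iff]
      intro Q hQ
      apply zero_of_van hAB hEX (s ^ 8) (r ^ 2) Q
      intro z hz
      refine (hVAN K s r hs (rename (fun i : Fin 3 => (i, (0 : Fin 3))) Q)).mpr ?_ z hz
      have h1 : aeval x Q = Ideal.Quotient.mk (RingHom.ker (aeval (th s r) :
          MvPolynomial (Fin 3 × Fin 3) K →ₐ[K] MvPolynomial (Fin 3) K))
          (rename (fun i : Fin 3 => (i, (0 : Fin 3))) Q) := by
        have h2 : (aeval x : MvPolynomial (Fin 3) K →ₐ[K] _) =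
            (Ideal.Quotient.mkₐ K (RingHom.ker (aeval (th s r) :
          MvPolynomial (Fin 3 × Fin 3) K →ₐ[K] MvPolynomial (Fin 3) K))).comp
            (rename (fun i : Fin 3 => (i, (0 : Fin 3)))) := by
          apply MvPolynomial.algHom_ext
          intro i
          rw [aeval_X, AlgHom.comp_apply, rename_X]
          rfl
        rw [h2]
        rfl
      rw [h1, Ideal.Quotient.eq_zero_iff_mem] at hQ
      exact hQ
    have h3 := hx.cardinalMk_le_trdeg
    simpa using h3

end Pool.Agent.Work.MP_d5a5f5_ag
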