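import Pool.Agent.Work.MP_d5a5f5_ag.Asm2
import Pool.Agent.Work.MP_d5a5f5_ag.ItemNZ
import Pool.Agent.Work.MP_d5a5f5_ag.ItemBR
import Pool.Agent.Work.MP_d5a5f5_ag.ItemCONE
import Pool.Agent.Work.MP_d5a5f5_ag.ItemTAN
import Pool.Agent.Work.MP_d5a5f5_ag.ItemDEN
import Pool.Agent.Work.MP_d5a5f5_ag.ItemGOOD
import Pool.Agent.Work.MP_d5a5f5_ag.ItemTR
import Pool.Agent.Work.MP_d5a5f5_ag.ItemCURVE
import Pool.Agent.Work.MP_d5a5f5_ag.ItemANI
import Pool.Agent.Work.MP_d5a5f5_ag.ItemPTS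

/-!
The final statement for the surface over `F_2(d, e)`.
-/

namespace Pool.Agent.Work.MP_d5a5f5_ag

open MvPolynomial

theorem charTwo_kk : CharP kk 2 :=
  charP_of_injective_algebraMap (IsFractionRing.injective A2 kk) 2

theorem dk_ne : dk ≠ 0 := by
  intro h
  have : dA = 0 := by
    apply IsFractionRing.injective A2 kk
    rw [map_zero]; exact h
  exact Polynomial.X_ne_zero this

theorem infinite_kk : Infinite kk :=
  Infinite.of_injective _ (IsFractionRing.injective A2 kk)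

/-- The two rational points are points. -/
theorem isPoint_P0 (hM : claimMAP) (hAB : claimAB) : IsPoint (Feq dk ek) (P0 kk) := by
  refine ⟨?_, fun i => isPoint_of_eq hM hAB dk ek _ _ ?_ i⟩
  · apply tens_ne_zero <;> (intro h; have := congrFun h 0; simp at this)
  · ext i
    fin_cases i <;> simp [al, be]

theorem isPoint_P1 (hM : claimMAP) (hAB : claimAB) : IsPoint (Feq dk ek) (P1 kk) := by
  have := charTwo_kk
  have h2 : (2 : kk) = 0 := CharTwo.two_eq_zero
  refine ⟨?_, fun i => isPoint_of_eq hM hAB dk ek _ _ ?_ i⟩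
  · apply tens_ne_zero <;> (intro h; have := congrFun h 0; simp at this)
  · ext i
    have h11 : (1 : kk) + 1 = 0 := by rw [one_add_one_eq_two]; exact h2
    fin_cases i <;> simp [al, be, h11]

/-- A point with nonzero coordinate `z (1, 0)`. -/
theorem exists_pt10 (hM : claimMAP) (hAB : claimAB) (hEX : claimEX) :
    ∃ v : Fin 3 × Fin 3 → AlgebraicClosure kk, IsPoint (Feq dk ek) v ∧ v (1, 0) ≠ 0 := by
  have := charTwo_kk
  have : CharP (AlgebraicClosure kk) 2 := charTwo_kb
  set D := algebraMap kk (AlgebraicClosure kk) dk with hD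
  set E := algebraMap kk (AlgebraicClosure kk) ek with hE
  obtain ⟨t, ht⟩ : ∃ t : AlgebraicClosure kk, t ≠ 0 := ⟨1, one_ne_zero⟩
  -- choose `x = (x₀, 1, 0)` with `x₀² = D + 1`
  obtain ⟨x0, hx0⟩ := IsAlgClosed.exists_pow_nat_eq (1 - D) (n := 2) (by norm_num)
  obtain ⟨y, hy⟩ := hEX (AlgebraicClosure kk) (al D E ![x0, 1, 0])
  have h0 : y 0 ^ 2 = 1 := by
    have := congrFun hy 0
    simp only [be, al] at this
    simp at this
    rw [this, hx0]
    ring
  have hy0 : y 0 ≠ 0 := by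
    intro h
    rw [h] at h0
    simp at h0
  refine ⟨tens ![x0, 1, 0] y, ⟨?_, fun i => isPoint_of_eq hM hAB dk ek _ _ hy.symm i⟩, ?_⟩
  · apply tens_ne_zero
    · intro h
      have := congrFun h 1
      simp at this
    · intro h
      exact hy0 (by rw [h]; rfl)
  · simp [tens, hy0]

theorem notUnir (hM : claimMAP) (hAB : claimAB) (hEX : claimEX) (hRAT : claimRAT) :
    ¬ Unirational (Feq dk ek) kk := by
  rintro ⟨n, -, φ, hφ, hdom⟩
  obtain ⟨v, hv, hv1⟩ := exists_pt10 hM hAB hEX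
  have h1 : φ (1, 0) = 0 := by
    obtain ⟨c, -, h | h⟩ := hRAT n φ hφ
    · rw [h]; simp [P0, tens]
    · rw [h]; simp [P1, tens]
  have := hdom (X (1, 0)) ⟨1, isHomogeneous_X _ _⟩ (by simp [h1]) v hv
  rw [aeval_X] at this
  exact hv1 this

/-- Everything, with the remaining items as hypotheses. -/
theorem final (hRK : claimRK) (hVAN : claimVAN) (hPRIM : claimPRIM) :
    ∃ (k : Type) (_ : Field k) (_ : Infinite k) (_ : CharP k 2) (σ ι : Type) (_ : Fintype σ)
      (_ : Fintype ι) (F : ι → MvPolynomial σ k),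
      IsSmoothProjectiveVariety F 2 ∧
      RationallyConnected F ∧
      Unirational F (AlgebraicClosure k) ∧
      (∃ P Q : σ → k, IsPoint F P ∧ IsPoint F Q ∧ (∀ c : k, P ≠ c • Q) ∧
        ∀ (n : ℕ) (φ : σ → MvPolynomial (Fin n) k), IsPoint F φ →
          ∃ c : MvPolynomial (Fin n) k, c ≠ 0 ∧
            ((∀ s, φ s = c * C (P s)) ∨ (∀ s, φ s = c * C (Q s)))) ∧
      ¬ Unirational F k := by
  have hRAT : claimRAT := prfRAT (prfPTS prfANI2 hPRIM) prfAB prfMAP
  have hCONE : claimCONE := prfCONE prfNZ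
  have hBR : claimBR := prfBR prfAB
  have hTR : claimTR := prfTR prfAB prfEX hVAN
  have : CharP kk 2 := charTwo_kk
  have hsm : IsSmoothProjectiveVariety (Feq dk ek) 2 :=
    smoothProj prfMAP prfAB prfNZ prfEX hBR hCONE hVAN hTR hRK prfBADNZ dk ek dk_ne
  refine ⟨kk, inferInstance, infinite_kk, charTwo_kk, Fin 3 × Fin 3,
    (Fin 3 × Fin 3 × Fin 3 × Fin 3) ⊕ (Fin 3 × Fin 3), inferInstance, inferInstance,
    Feq dk ek, hsm, ?_, ?_, ?_, ?_⟩
  · exact ratConn prfMAP prfAB prfNZ prfEX hBR hCONE prfGOOD prfCURVE prfBADNZ dk ek dk_ne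
  · exact unir_kb prfMAP prfAB hVAN dk ek dk_ne hsm.nonempty
  · refine ⟨P0 kk, P1 kk, isPoint_P0 prfMAP prfAB, isPoint_P1 prfMAP prfAB, ?_, ?_⟩
    · intro c h
      have h00 := congrFun h (0, 0)
      have h01 := congrFun h (0, 1)
      simp [P0, P1, tens] at h00 h01
      rw [← h00] at h01
      exact zero_ne_one h01
    · intro n φ hφ
      obtain ⟨c, hc, h⟩ := hRAT n φ hφ
      refine ⟨c, hc, ?_⟩
      rcases h with h | h
      · left
        rintro ⟨i, j⟩
        rw [h]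
        fin_cases i <;> fin_cases j <;> simp [P0, tens]
      · right
        rintro ⟨i, j⟩
        rw [h]
        fin_cases i <;> fin_cases j <;> simp [P1, tens]
  · exact notUnir prfMAP prfAB prfEX hRAT

end Pool.Agent.Work.MP_d5a5f5_ag
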