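import Mathlib

/-!
Projective varieties over a field `k` given by homogeneous equations, in elementary terms:
smoothness, geometric irreducibility, rational connectedness and unirationality.

The projective space has its homogeneous coordinates indexed by a finite type `σ`, so its
dimension is `Fintype.card σ - 1`; the closed subscheme is `F i = 0`, `i : ι`.
-/

namespace Pool.Agent.Work.MP_d5a5f5_ag

open MvPolynomial

section General

variable {σ ι k : Type} [Field k]

/-- `v` is a tuple of homogeneous coordinates, with entries in the `k`-algebra `L`, of a point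
of the closed subset `F = 0` of projective space: it is not zero and it solves all equations.
For a field `L` these are the homogeneous coordinates of the `L`-points. -/
def IsPoint (F : ι → MvPolynomial σ k) {L : Type} [CommRing L] [Algebra k L]
    (v : σ → L) : Prop :=
  v ≠ 0 ∧ ∀ i, aeval v (F i) = 0

/-- The ideal of all polynomials over the algebraic closure which vanish on the affine cone
over `X(kbar)`, that is the homogeneous ideal of `X(kbar)`. -/
noncomputable def vanIdeal (F : ι → MvPolynomial σ k) :
    Ideal (MvPolynomial σ (AlgebraicClosure k)) :=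
  vanishingIdeal (AlgebraicClosure k)
    {v : σ → AlgebraicClosure k | ∀ i, aeval v (F i) = 0}

/-- The Jacobian matrix of the equations at `v`. -/
noncomputable def jac (F : ι → MvPolynomial σ k) {L : Type} [CommRing L] [Algebra k L]
    (v : σ → L) : Matrix ι σ L :=
  Matrix.of fun i s => aeval v (pderiv s (F i))

/-- The equations `F = 0` define a smooth, projective and geometrically integral `k`-variety of
dimension `n` in the projective space with coordinates `σ`: the equations are homogeneous,
`X(kbar)` is not empty and irreducible (its homogeneous ideal is prime), its homogeneous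
coordinate ring has transcendence degree `n + 1` over `kbar`, and (Jacobian criterion) at every
point of `X(kbar)` the Jacobian matrix has rank equal to the codimension
`(card σ - 1) - n`. -/
structure IsSmoothProjectiveVariety [Fintype σ] [Fintype ι] (F : ι → MvPolynomial σ k)
    (n : ℕ) : Prop where
  homogeneous : ∀ i, ∃ m, (F i).IsHomogeneous m
  nonempty : ∃ v : σ → AlgebraicClosure k, IsPoint F v
  irreducible : (vanIdeal F).IsPrime
  dimension : Algebra.trdeg (AlgebraicClosure k)
    (MvPolynomial σ (AlgebraicClosure k) ⧸ vanIdeal F) = (n + 1 : ℕ)
  smooth : ∀ v : σ → AlgebraicClosure k, IsPoint F v →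
    (jac F v).rank + (n + 1) = Fintype.card σ

/-- The points `p`, `q` of `X(kbar)` lie on the image of a morphism from the projective line
to `X`: the morphism is given by binary forms `φ s` of a common degree without common zero,
which solve the equations of `X`. -/
def Joined (F : ι → MvPolynomial σ k) (p q : σ → AlgebraicClosure k) : Prop :=
  ∃ (D : ℕ) (φ : σ → MvPolynomial (Fin 2) (AlgebraicClosure k)),
    (∀ s, (φ s).IsHomogeneous D) ∧
    (∀ w : Fin 2 → AlgebraicClosure k, w ≠ 0 → ∃ s, eval w (φ s) ≠ 0) ∧
    (∀ i, aeval φ (F i) = 0) ∧
    (∃ w : Fin 2 → AlgebraicClosure k, w ≠ 0 ∧ ∃ c : AlgebraicClosure k, c ≠ 0 ∧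
      (fun s => eval w (φ s)) = c • p) ∧
    (∃ w : Fin 2 → AlgebraicClosure k, w ≠ 0 ∧ ∃ c : AlgebraicClosure k, c ≠ 0 ∧
      (fun s => eval w (φ s)) = c • q)

/-- `X` is rationally connected: there is a nonempty open subset `G ≠ 0` of `X(kbar)` such that
any two of its points lie on the image of a morphism from the projective line to `X` (over
`kbar`). -/
def RationallyConnected (F : ι → MvPolynomial σ k) : Prop :=
  ∃ G : MvPolynomial σ (AlgebraicClosure k), (∃ m, G.IsHomogeneous m) ∧ G ∉ vanIdeal F ∧
    ∀ p q : σ → AlgebraicClosure k, IsPoint F p → IsPoint F q → eval p G ≠ 0 →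
      eval q G ≠ 0 → Joined F p q

/-- For a field `L` between `k` and `kbar` (used for `L = k` and `L = kbar`) `X_L` is
`L`-unirational: for some `n ≥ 1` there is a rational map, defined over `L`, from projective
`n`-space to `X`, given in affine coordinates by polynomials `φ s` over `L` in `n` variables,
not all zero, which solve the equations of `X`, and it is dominant: a form `G` over `L` with
`G(φ) = 0` vanishes on `X(kbar)`. -/
def Unirational (F : ι → MvPolynomial σ k) (L : Type) [Field L] [Algebra k L]
    [Algebra L (AlgebraicClosure k)] : Prop :=
  ∃ n : ℕ, 1 ≤ n ∧ ∃ φ : σ → MvPolynomial (Fin n) L, IsPoint F φ ∧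
    ∀ G : MvPolynomial σ L, (∃ m, G.IsHomogeneous m) → aeval φ G = 0 →
      ∀ v : σ → AlgebraicClosure k, IsPoint F v → aeval v G = 0

end General

end Pool.Agent.Work.MP_d5a5f5_ag
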