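import Pool.Agent.Work.MP_d5a5f5_ag.Stmts

namespace Pool.Agent.Work.MP_d5a5f5_ag

open MvPolynomial

/-- The key identity: with `N = D⁴U⁴(A²+A) + Q`, `Q = s⁴(U²⁴+rU¹⁶+s⁴U⁸+1)`. -/
theorem par_key {L : Type*} [CommRing L] (h2 : (2 : L) = 0) (A D U E N P Q T : L)
    (hN : N = D ^ 4 * U ^ 4 * (A ^ 2 + A) + Q)
    (hP : P = A * D ^ 2 * U ^ 8 * E ^ 2 + N ^ 2 + N * D * U ^ 4 * E)
    (hE : E = T + D ^ 3) :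
    P ^ 2 + P * D ^ 2 * U ^ 8 * E ^ 2 + N ^ 4 + T * U ^ 12 * E ^ 3 * N + U ^ 12 * E ^ 4 * Q
      = 0 := by
  have hT : T = E - D ^ 3 := by rw [hE]; ring
  have hQ : Q = N - D ^ 4 * U ^ 4 * (A ^ 2 + A) := by rw [hN]; ring
  rw [hQ, hT, hP]
  have : ((A * D ^ 2 * U ^ 8 * E ^ 2 + N ^ 2 + N * D * U ^ 4 * E) ^ 2 +
        (A * D ^ 2 * U ^ 8 * E ^ 2 + N ^ 2 + N * D * U ^ 4 * E) * D ^ 2 * U ^ 8 * E ^ 2 + N ^ 4 +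
        (E - D ^ 3) * U ^ 12 * E ^ 3 * N +
        U ^ 12 * E ^ 4 * (N - D ^ 4 * U ^ 4 * (A ^ 2 + A))) =
      2 * (N ^ 4 + N ^ 2 * D ^ 2 * U ^ 8 * E ^ 2 + A * D ^ 2 * U ^ 8 * E ^ 2 * N ^ 2 +
        A * D ^ 3 * U ^ 12 * E ^ 3 * N + N ^ 3 * D * U ^ 4 * E + U ^ 12 * E ^ 4 * N) := by
    ring
  rw [this, h2, zero_mul]

theorem prfPAR : claimPAR := by
  intro L _ _ s r U A
  have h2 : (2 : L) = 0 := CharTwo.two_eq_zero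
  set D := pD U with hD
  set E := pE s U with hE
  set N := pN s r U A with hN
  set P := pP s r U A with hP
  set W := pW s U with hW
  set M := pM s r U A with hM
  set X1 := pX1 s r U A with hX1
  have hD' : D = U ^ 3 + 1 := rfl
  have hE' : E = s ^ 3 * U ^ 3 + D ^ 3 := rfl
  have hN' : N = D ^ 4 * U ^ 4 * (A ^ 2 + A) + s ^ 4 * (U ^ 24 + r * U ^ 16 + s ^ 4 * U ^ 8 + 1) :=
    rfl
  have hP' : P = A * D ^ 2 * U ^ 8 * E ^ 2 + N ^ 2 + N * D * U ^ 4 * E := rfl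
  have hW' : W = s ^ 4 * U ^ 12 * E ^ 2 := rfl
  have hM' : M = s ^ 3 * U ^ 7 * E * N + P := rfl
  have hX1' : X1 = P ^ 2 + s ^ 8 * U ^ 20 * E ^ 4 := rfl
  have hX : pX s r U A = ![P * W * U ^ 2 + s ^ 4 * X1 + r * (W ^ 2 * U ^ 4), X1, W ^ 2 * U ^ 4] :=
    rfl
  have hY : pY s r U A = ![W ^ 2, U ^ 8 * W ^ 2 + M ^ 2, M * W] := rfl
  have key := par_key h2 A D U E N P (s ^ 4 * (U ^ 24 + r * U ^ 16 + s ^ 4 * U ^ 8 + 1))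
    (s ^ 3 * U ^ 3) hN' hP' hE'
  rw [hX, hY]
  ext i
  fin_cases i
  · show (P * W * U ^ 2 + s ^ 4 * X1 + r * (W ^ 2 * U ^ 4)) ^ 2 + X1 * (W ^ 2 * U ^ 4) +
      s ^ 8 * X1 ^ 2 + r ^ 2 * (W ^ 2 * U ^ 4) ^ 2 = (W ^ 2) ^ 2
    have e1 : W ^ 2 * U ^ 4 * (s ^ 8 * U ^ 20 * E ^ 4) = (W ^ 2) ^ 2 := by
      rw [hW']; ring
    rw [← e1]
    have e2 : s ^ 8 * U ^ 20 * E ^ 4 = X1 - P ^ 2 := by rw [hX1']; ring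
    rw [e2]
    linear_combination (P * W * U ^ 2 * (s ^ 4 * X1 + r * (W ^ 2 * U ^ 4)) +
      s ^ 4 * X1 * (r * (W ^ 2 * U ^ 4)) + s ^ 8 * X1 ^ 2 + r ^ 2 * (W ^ 2 * U ^ 4) ^ 2 +
      P ^ 2 * W ^ 2 * U ^ 4) * h2
  · show X1 ^ 2 + (P * W * U ^ 2 + s ^ 4 * X1 + r * (W ^ 2 * U ^ 4)) * (W ^ 2 * U ^ 4) =
      (U ^ 8 * W ^ 2 + M ^ 2) ^ 2 + W ^ 2 * (M * W)
    rw [hD'] at key
    rw [hM', hX1', hW']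
    linear_combination (s ^ 12 * U ^ 28 * E ^ 4) * key +
      ((-1) * E ^ 8 * U ^ 64 * s ^ 16 + (-1) * N * E ^ 7 * U ^ 43 * s ^ 15 +
      (-1) * N ^ 2 * E ^ 6 * U ^ 46 * s ^ 14 + (-1) * N ^ 4 * E ^ 4 * U ^ 28 * s ^ 12 +
      (-1) * P * E ^ 6 * U ^ 36 * s ^ 12 + (-1) * P * E ^ 6 * U ^ 39 * s ^ 12 +
      (-2) * P * N * E ^ 5 * U ^ 39 * s ^ 11 + (-2) * P * N ^ 3 * E ^ 3 * U ^ 21 * s ^ 9 +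
      P ^ 2 * E ^ 4 * U ^ 20 * s ^ 8 + (-1) * P ^ 2 * E ^ 4 * U ^ 32 * s ^ 8 +
      (-3) * P ^ 2 * N ^ 2 * E ^ 2 * U ^ 14 * s ^ 6 +
      (-2) * P ^ 3 * N * E * U ^ 7 * s ^ 3) * h2
  · show (W ^ 2 * U ^ 4) ^ 2 = (M * W) ^ 2 + W ^ 2 * (U ^ 8 * W ^ 2 + M ^ 2)
    linear_combination (-(M ^ 2 * W ^ 2)) * h2

end Pool.Agent.Work.MP_d5a5f5_ag
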