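import Pool.Agent.Work.MP_d5a5f5_ag.Stmts

/-!
PTS: points over `F_2[e][d][u]`; RAT: rational maps to `X` are constant.
-/

namespace Pool.Agent.Work.MP_d5a5f5_ag

open MvPolynomial

namespace PTS

lemma add_self_A2 {n : ℕ} (x : MvPolynomial (Fin n) A2) : x + x = 0 := by
  have h2 : (2 : MvPolynomial (Fin n) A2) = 0 := by
    have h3 : (2 : ZMod 2) = 0 := rfl
    have h4 : (2 : MvPolynomial (Fin n) A2) = C (Polynomial.C (Polynomial.C (2 : ZMod 2))) := by
      rw [map_ofNat, map_ofNat, map_ofNat]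
    rw [h4, h3, Polynomial.C_0, Polynomial.C_0, C_0]
  calc x + x = 2 * x := by ring
    _ = 0 := by rw [h2, zero_mul]

lemma eq_of_add {n : ℕ} {x y : MvPolynomial (Fin n) A2} (h : x + y = 0) : x = y := by
  have h1 := add_self_A2 y
  linear_combination h - h1

end PTS

open PTS in
theorem prfPTS (hA : claimANI2) (hP : claimPRIM) : claimPTS := by
  intro n x y hx hy hxy
  obtain ⟨x', y', a, b, ha, hb, rfl, rfl, h⟩ := hP n x y hx hy hxy
  have hx' : x' ≠ 0 := by
    rintro rfl
    exact hx (smul_zero a)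
  have h0 := congrFun h 0
  have h1 := congrFun h 1
  have h2 := congrFun h 2
  simp only [al, be, Matrix.cons_val_zero, Matrix.cons_val_one, Matrix.cons_val] at h0 h1 h2
  obtain ⟨hA1, hA2⟩ := hA n
  have e1 := add_self_A2 (x' 0 * y' 0)
  have e2 := add_self_A2 (y' 0 ^ 2)
  have e3 := add_self_A2 (x' 1 * x' 2 + C dA * x' 1 ^ 2 + C eA * x' 2 ^ 2)
  obtain ⟨k0, k1, k2⟩ := hA1 (x' 0 + y' 0) (x' 1) (x' 2) (by
    linear_combination h0 + e1 + e2 - e3)
  have k0' : x' 0 = y' 0 := eq_of_add k0
  rw [k1, k2] at h1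
  rw [k2] at h2
  have m1 : y' 1 ^ 2 = y' 0 * y' 2 := by
    apply eq_of_add
    linear_combination -h1
  have m2 : y' 2 ^ 2 = y' 0 * y' 1 := by
    apply eq_of_add
    linear_combination -h2
  have hx0 : x' 0 ≠ 0 := by
    intro h0
    apply hx'
    funext i
    fin_cases i
    · exact h0
    · exact k1
    · exact k2
  have hy0 : y' 0 ≠ 0 := by rwa [← k0']
  refine ⟨a * x' 0, b * x' 0, mul_ne_zero ha hx0, mul_ne_zero hb hx0, ?_, ?_⟩
  · funext i
    fin_cases i
    · rfl
    · simp [k1]
    · simp [k2]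
  · by_cases hy1 : y' 1 = 0
    · left
      have hy2 : y' 2 = 0 := by
        rw [hy1, mul_zero] at m2
        exact pow_eq_zero_iff (two_ne_zero) |>.mp m2
      funext i
      fin_cases i
      · simp [k0']
      · simp [hy1]
      · simp [hy2]
    · right
      have m3 : y' 1 * (y' 1 ^ 3 - y' 0 ^ 3) = 0 := by
        linear_combination (y' 1 ^ 2 + y' 0 * y' 2) * m1 + y' 0 ^ 2 * m2
      have m4 : y' 1 ^ 3 - y' 0 ^ 3 = 0 := (mul_eq_zero.mp m3).resolve_left hy1
      have m5 : (y' 1 - y' 0) * (y' 1 ^ 2 + y' 1 * y' 0 + y' 0 ^ 2) = 0 := by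
        linear_combination m4
      have m6 : y' 1 = y' 0 := by
        rcases mul_eq_zero.mp m5 with m | m
        · exact sub_eq_zero.mp m
        · exact absurd (hA2 _ _ m).1 hy1
      have m7 : y' 2 = y' 0 := by
        have : y' 0 * (y' 2 - y' 0) = 0 := by
          rw [m6] at m1
          linear_combination -m1
        exact sub_eq_zero.mp ((mul_eq_zero.mp this).resolve_left hy0)
      funext i
      fin_cases i
      · simp [k0']
      · simp [k0', m6]
      · simp [k0', m7]

namespace PTS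

lemma clear_one {n : ℕ} (p : MvPolynomial (Fin n) kk) : ∃ (a : A2) (q : MvPolynomial (Fin n) A2),
    a ≠ 0 ∧ C (algebraMap A2 kk a) * p = map (algebraMap A2 kk) q := by
  induction p using MvPolynomial.induction_on with
  | C r =>
    obtain ⟨u, v, hv, huv⟩ := IsFractionRing.div_surjective (A := A2) r
    have hv0 : v ≠ 0 := nonZeroDivisors.ne_zero hv
    refine ⟨v, C u, hv0, ?_⟩
    rw [← C_mul, map_C, ← huv]
    congr 1
    have : algebraMap A2 kk v ≠ 0 := by
      rw [Ne, IsFractionRing.to_map_eq_zero_iff]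
      exact hv0
    field_simp
  | add p q hp hq =>
    obtain ⟨a, p', ha, hp'⟩ := hp
    obtain ⟨b, q', hb, hq'⟩ := hq
    refine ⟨a * b, C b * p' + C a * q', mul_ne_zero ha hb, ?_⟩
    calc C (algebraMap A2 kk (a * b)) * (p + q)
        = C (algebraMap A2 kk b) * (C (algebraMap A2 kk a) * p)
          + C (algebraMap A2 kk a) * (C (algebraMap A2 kk b) * q) := by
          rw [RingHom.map_mul (algebraMap A2 kk), C_mul]
          ring
      _ = map (algebraMap A2 kk) (C b * p' + C a * q') := by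
          rw [hp', hq', RingHom.map_add, RingHom.map_mul, RingHom.map_mul, map_C, map_C]
  | mul_X p i hp =>
    obtain ⟨a, p', ha, hp'⟩ := hp
    refine ⟨a, p' * X i, ha, ?_⟩
    rw [map_mul, map_X, ← hp']
    ring

lemma clear {n : ℕ} {σ : Type} [Fintype σ] [DecidableEq σ] (φ : σ → MvPolynomial (Fin n) kk) :
    ∃ (a : A2) (q : σ → MvPolynomial (Fin n) A2),
    a ≠ 0 ∧ ∀ s, C (algebraMap A2 kk a) * φ s = map (algebraMap A2 kk) (q s) := by
  choose a q ha hq using fun s => clear_one (φ s)
  refine ⟨∏ s, a s, fun s => C (∏ t ∈ Finset.univ.erase s, a t) * q s,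
    Finset.prod_ne_zero_iff.mpr fun s _ => ha s, fun s => ?_⟩
  calc C (algebraMap A2 kk (∏ s, a s)) * φ s
      = C (algebraMap A2 kk (∏ t ∈ Finset.univ.erase s, a t))
        * (C (algebraMap A2 kk (a s)) * φ s) := by
        rw [← Finset.mul_prod_erase Finset.univ a (Finset.mem_univ s),
          RingHom.map_mul (algebraMap A2 kk), C_mul]
        ring
    _ = map (algebraMap A2 kk) (C (∏ t ∈ Finset.univ.erase s, a t) * q s) := by
        rw [hq, RingHom.map_mul, map_C]

variable {R : Type} [CommRing R]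

lemma AB_smul (d e t : R) (z : Fin 3 × Fin 3 → R) (i j : Fin 3) :
    eval (fun s => t * z s) (AB d e i j) = t ^ 2 * eval z (AB d e i j) := by
  simp only [AB, map_sum, map_mul, eval_C, eval_X, Finset.mul_sum]
  refine Finset.sum_congr rfl fun p _ => Finset.sum_congr rfl fun q _ =>
    Finset.sum_congr rfl fun u _ => Finset.sum_congr rfl fun v _ => ?_
  ring

lemma Feq_smul (d e t : R) (z : Fin 3 × Fin 3 → R)
    (i : (Fin 3 × Fin 3 × Fin 3 × Fin 3) ⊕ (Fin 3 × Fin 3)) :
    eval (fun s => t * z s) (Feq d e i) = t ^ 2 * eval z (Feq d e i) := by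
  rcases i with ⟨i, j, i', j'⟩ | ⟨i, j⟩
  · simp only [Feq, map_sub, map_mul, eval_X]
    ring
  · simp only [Feq, map_sub, AB_smul]
    ring

end PTS

open PTS in
theorem prfRAT (hT : claimPTS) (hB : claimAB) (hM : claimMAP) : claimRAT := by
  intro n φ hφ
  obtain ⟨hφ0, hφ⟩ := hφ
  obtain ⟨a, q, ha, hq⟩ := clear φ
  have hinj : Function.Injective (map (σ := Fin n) (algebraMap A2 kk)) :=
    map_injective _ (IsFractionRing.injective A2 kk)
  have ha' : (C (algebraMap A2 kk a) : MvPolynomial (Fin n) kk) ≠ 0 := by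
    rw [Ne, C_eq_zero, IsFractionRing.to_map_eq_zero_iff]
    exact ha
  -- the equations over the polynomial ring
  have hq0 : ∀ i, eval q (Feq (C dA) (C eA) i) = 0 := by
    intro i
    apply hinj
    rw [map_zero]
    have h1 : eval φ (Feq (C dk) (C ek) i) = 0 := by
      have h2 := hφ i
      rw [← hM kk (MvPolynomial (Fin n) kk) C dk ek i, eval_map]
      exact h2
    have h3 : eval (fun s => C (algebraMap A2 kk a) * φ s) (Feq (C dk) (C ek) i) = 0 := by
      rw [Feq_smul, h1, mul_zero]
    have h4 : Feq (C dk : MvPolynomial (Fin n) kk) (C ek) i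
        = map (map (algebraMap A2 kk)) (Feq (C dA : MvPolynomial (Fin n) A2) (C eA) i) := by
      rw [hM (MvPolynomial (Fin n) A2) (MvPolynomial (Fin n) kk), map_C, map_C]
      rfl
    rw [h4, eval_map] at h3
    have h5 := eval₂_comp_left (map (σ := Fin n) (algebraMap A2 kk))
      (RingHom.id (MvPolynomial (Fin n) A2)) q (Feq (C dA) (C eA) i)
    rw [RingHom.comp_id] at h5
    have h6 : (map (σ := Fin n) (algebraMap A2 kk)) ∘ q
        = fun s => C (algebraMap A2 kk a) * φ s := by
      funext s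
      exact (hq s).symm
    rw [h6, h3] at h5
    exact h5
  obtain ⟨⟨i0, j0⟩, hs⟩ : ∃ s, q s ≠ 0 := by
    by_contra hcon
    push Not at hcon
    apply hφ0
    funext s
    have h1 := hq s
    rw [hcon, map_zero] at h1
    exact (mul_eq_zero.mp h1).resolve_left ha'
  have hseg : ∀ i j i' j', q (i, j) * q (i', j') = q (i, j') * q (i', j) := by
    intro i j i' j'
    have h1 := hq0 (Sum.inl (i, j, i', j'))
    simp only [Feq, map_sub, map_mul, eval_X] at h1
    exact sub_eq_zero.mp h1
  have hAB : ∀ i j, eval q (AB (C dA) (C eA) i j) = eval q (AB (C dA) (C eA) j i) := by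
    intro i j
    have h1 := hq0 (Sum.inr (i, j))
    simp only [Feq, map_sub] at h1
    exact sub_eq_zero.mp h1
  set x : Fin 3 → MvPolynomial (Fin n) A2 := fun i => q (i, j0) with hx
  set y : Fin 3 → MvPolynomial (Fin n) A2 := fun j => q (i0, j) with hy
  have htens : tens x y = fun s => q (i0, j0) * q s := by
    funext s
    obtain ⟨i, j⟩ := s
    simp only [tens, hx, hy]
    rw [hseg i j0 i0 j]
    ring
  have hx0 : x ≠ 0 := fun h => hs (congrFun h i0)
  have hy0 : y ≠ 0 := fun h => hs (congrFun h j0)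
  have hpar : ∀ i j, al (C dA) (C eA) x i * be y j = al (C dA) (C eA) x j * be y i := by
    intro i j
    have f1 := (hB (MvPolynomial (Fin n) A2) (C dA) (C eA)).1 x y i j
    have f2 := (hB (MvPolynomial (Fin n) A2) (C dA) (C eA)).1 x y j i
    rw [htens] at f1 f2
    have f3 := AB_smul (C dA) (C eA) (q (i0, j0)) q i j
    have f4 := AB_smul (C dA) (C eA) (q (i0, j0)) q j i
    rw [hAB i j] at f3
    exact f1.symm.trans (f3.trans (f4.symm.trans f2))
  obtain ⟨u, v, hu, hv, hxu, hyv⟩ := hT n x y hx0 hy0 hpar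
  have hqs : ∀ i j, q (i0, j0) * q (i, j) = x i * y j := by
    intro i j
    have := congrFun htens (i, j)
    simp only [tens] at this
    exact this.symm
  -- the conclusion for a pattern
  have hfin : ∀ P : Fin 3 × Fin 3 → Bool, P (0, 0) = true →
      (∀ i j, x i * y j = if P (i, j) then u * v else 0) →
      φ (0, 0) ≠ 0 ∧ ∀ s, φ s = φ (0, 0) * (if P s then 1 else 0) := by
    intro P hP hPs
    have h1 : ∀ s, q s = if P s then q (0, 0) else 0 := by
      rintro ⟨i, j⟩
      have h2 := hqs i j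
      have h3 := hqs 0 0
      rw [hPs, hP, if_pos rfl] at h3
      rw [hPs] at h2
      split_ifs at h2 ⊢
      · exact mul_left_cancel₀ hs (h2.trans h3.symm)
      · exact (mul_eq_zero.mp h2).resolve_left hs
    have h4 : ∀ s, φ s = φ (0, 0) * (if P s then 1 else 0) := by
      intro s
      apply mul_left_cancel₀ ha'
      rw [← mul_assoc, hq, hq, h1 s]
      split_ifs
      · rw [mul_one]
      · rw [mul_zero, map_zero]
    refine ⟨fun h0 => hφ0 ?_, h4⟩
    funext s
    rw [h4 s, h0, zero_mul]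
    rfl
  rcases hyv with hyv | hyv
  · obtain ⟨h1, h2⟩ := hfin (fun s => decide (s = (0, 0))) (by decide) (by
      intro i j
      rw [hxu, hyv]
      fin_cases i <;> fin_cases j <;> simp)
    refine ⟨φ (0, 0), h1, Or.inl ?_⟩
    funext s
    rw [h2 s, Pi.smul_apply, smul_eq_mul]
    congr 1
    obtain ⟨i, j⟩ := s
    fin_cases i <;> fin_cases j <;> simp [P0, tens]
  · obtain ⟨h1, h2⟩ := hfin (fun s => decide (s.1 = 0)) (by decide) (by
      intro i j
      rw [hxu, hyv]
      fin_cases i <;> fin_cases j <;> simp)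
    refine ⟨φ (0, 0), h1, Or.inr ?_⟩
    funext s
    rw [h2 s, Pi.smul_apply, smul_eq_mul]
    congr 1
    obtain ⟨i, j⟩ := s
    fin_cases i <;> fin_cases j <;> simp [P1, tens]

end Pool.Agent.Work.MP_d5a5f5_ag
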