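import Pool.Agent.Work.MP_d5a5f5_ag.Defs

/-!
Statements of the lemmas (each `claimX` is proved in its own file `ItemX.lean`).
-/

namespace Pool.Agent.Work.MP_d5a5f5_ag

open MvPolynomial

/-- NZ: `α` and `β` have no zero but zero. -/
def claimNZ : Prop :=
  ∀ (L : Type) [CommRing L] [IsDomain L] (d e : L),
    (∀ x : Fin 3 → L, al d e x = 0 → x = 0) ∧ (∀ y : Fin 3 → L, be y = 0 → y = 0)

/-- MAP: the equations and ring homomorphisms. -/
def claimMAP : Prop :=
  ∀ (R S : Type) [CommRing R] [CommRing S] (f : R →+* S) (d e : R)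
    (i : (Fin 3 × Fin 3 × Fin 3 × Fin 3) ⊕ (Fin 3 × Fin 3)),
    map f (Feq d e i) = Feq (f d) (f e) i

/-- AB: the value of the quadrics at `x ⊗ y`; the equations are homogeneous. -/
def claimAB : Prop :=
  ∀ (L : Type) [CommRing L] (d e : L),
    (∀ (x y : Fin 3 → L) (i j : Fin 3),
      eval (tens x y) (AB d e i j) = al d e x i * be y j) ∧
    (∀ i, (Feq d e i).IsHomogeneous 2) ∧
    (∀ x y : Fin 3 → L, (∀ i j, al d e x i * be y j = al d e x j * be y i) →
      ∀ i, eval (tens x y) (Feq d e i) = 0)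

/-- BR: the points of `X` are the `x ⊗ y` with `α(x)`, `β(y)` parallel. -/
def claimBR : Prop :=
  ∀ (L : Type) [Field L] (d e : L) (z : Fin 3 × Fin 3 → L),
    (z ≠ 0 ∧ ∀ i, eval z (Feq d e i) = 0) ↔
      ∃ x y : Fin 3 → L, x ≠ 0 ∧ y ≠ 0 ∧ z = tens x y ∧
        ∀ i j, al d e x i * be y j = al d e x j * be y i

/-- CONE: over an algebraically closed field one may scale to `α(x) = β(y)`. -/
def claimCONE : Prop :=
  ∀ (K : Type) [Field K] [IsAlgClosed K] (d e : K) (x y : Fin 3 → K), x ≠ 0 → y ≠ 0 →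
    (∀ i j, al d e x i * be y j = al d e x j * be y i) →
      ∃ x' y' : Fin 3 → K, x' ≠ 0 ∧ y' ≠ 0 ∧ al d e x' = be y' ∧ tens x' y' = tens x y

/-- EX: `β` is surjective on `K³`. -/
def claimEX : Prop :=
  ∀ (K : Type) [Field K] [IsAlgClosed K] [CharP K 2] (v : Fin 3 → K),
    ∃ y : Fin 3 → K, be y = v

/-- TAN: `M` is onto: the differential criterion. For `x, y` nonzero with `α(x) = c β(y)`,
`c ≠ 0`, every `v` is `dα(x)(a) + dβ(y)(b) + μ β(y)`. -/
def claimTAN : Prop :=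
  ∀ (K : Type) [Field K] [CharP K 2] (d e : K) (x y : Fin 3 → K) (c : K), x ≠ 0 → y ≠ 0 →
    c ≠ 0 → al d e x = c • be y → ∀ v : Fin 3 → K, ∃ (a b : Fin 3 → K) (μ : K),
      v = ![x 1 * a 2 + x 2 * a 1, x 0 * a 2 + x 2 * a 0, 0] +
        ![0, y 0 * b 2 + y 2 * b 0, y 0 * b 1 + y 1 * b 0] + μ • be y

/-- RK: the Jacobian matrix has rank `6 = 8 - 2` at every point. -/
def claimRK : Prop :=
  ∀ (K : Type) [Field K] [CharP K 2] (d e : K) (x y : Fin 3 → K), x ≠ 0 → y ≠ 0 →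
    (∀ i j, al d e x i * be y j = al d e x j * be y i) →
      (jac (Feq d e) (tens x y) : Matrix _ _ K).rank + 3 = 9

/-- DEN: functions on `α(x) = β(y)` which vanish on a nonempty open set given by a
polynomial in `x` vanish. -/
def claimDEN : Prop :=
  ∀ (K : Type) [Field K] [IsAlgClosed K] [CharP K 2] (d e : K)
    (H : MvPolynomial (Fin 3 ⊕ Fin 3) K) (b : MvPolynomial (Fin 3) K), b ≠ 0 →
    (∀ x y : Fin 3 → K, al d e x = be y → eval x b ≠ 0 → eval (Sum.elim x y) H = 0) →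
      ∀ x y : Fin 3 → K, al d e x = be y → eval (Sum.elim x y) H = 0

/-- PAR: the parametrisation satisfies `α(x) = β(y)`. -/
def claimPAR : Prop :=
  ∀ (L : Type) [CommRing L] [CharP L 2] (s r U A : L),
    al (s ^ 8) (r ^ 2) (pX s r U A) = be (pY s r U A)

/-- GOOD: the parametrisation hits every point of the open set `bad ≠ 0`. -/
def claimGOOD : Prop :=
  ∀ (K : Type) [Field K] [IsAlgClosed K] [CharP K 2] (s r : K), s ≠ 0 →
    ∀ x y : Fin 3 → K, al (s ^ 8) (r ^ 2) x = be y → bad (s ^ 8) (r ^ 2) x ≠ 0 →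
      ∃ w U A : K, w ≠ 0 ∧ tens x y = w • tens (pX s r U A) (pY s r U A)

/-- BADNZ: `bad` does not vanish identically (and is homogeneous of degree 37). -/
def claimBADNZ : Prop :=
  ∀ (K : Type) [Field K] [IsAlgClosed K] [CharP K 2] (d e : K),
    (∃ x : Fin 3 → K, bad d e x ≠ 0) ∧
    (bad (C d) (C e) (fun i : Fin 3 => (X (i, 0) : MvPolynomial (Fin 3 × Fin 3) K))).IsHomogeneous
      27

/-- The substitution `z_{ij} = w x_i(U, A) y_j(U, A)`, with `w, U, A` the three variables. -/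
noncomputable def th {K : Type} [Field K] (s r : K) :
    Fin 3 × Fin 3 → MvPolynomial (Fin 3) K :=
  fun ij => X 0 * tens (pX (C s) (C r) (X 1) (X 2)) (pY (C s) (C r) (X 1) (X 2)) ij

/-- VAN: the ideal of the cone over `X` is the kernel of the substitution `th`. -/
def claimVAN : Prop :=
  ∀ (K : Type) [Field K] [IsAlgClosed K] [CharP K 2] (s r : K), s ≠ 0 →
    ∀ G : MvPolynomial (Fin 3 × Fin 3) K,
      (∀ z : Fin 3 × Fin 3 → K, (∀ i, eval z (Feq (s ^ 8) (r ^ 2) i) = 0) → eval z G = 0) ↔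
        aeval (th s r) G = 0

/-- TR: the kernel of `th` has quotient of transcendence degree three. -/
def claimTR : Prop :=
  ∀ (K : Type) [Field K] [IsAlgClosed K] [CharP K 2] (s r : K), s ≠ 0 →
    Algebra.trdeg K (MvPolynomial (Fin 3 × Fin 3) K ⧸
      (RingHom.ker (aeval (th s r) :
        MvPolynomial (Fin 3 × Fin 3) K →ₐ[K] MvPolynomial (Fin 3) K))) = 3

/-- CURVE: a polynomial curve in `X` extends to a morphism from the projective line. -/
def claimCURVE : Prop :=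
  ∀ (σ ι k : Type) [Field k] [Fintype σ] (F : ι → MvPolynomial σ k),
    (∀ i, ∃ m, (F i).IsHomogeneous m) →
    ∀ (Φ : σ → Polynomial (AlgebraicClosure k)), (∀ i, aeval Φ (F i) = 0) →
    ∀ (p q : σ → AlgebraicClosure k) (t u c c' : AlgebraicClosure k), p ≠ 0 → q ≠ 0 →
      c ≠ 0 → c' ≠ 0 → (fun s => (Φ s).eval t) = c • p → (fun s => (Φ s).eval u) = c' • q →
      Joined F p q

/-- ANI: the form `z² + xy + d x² + e y²` is anisotropic over `F_2[e][d]`. -/
def claimANI : Prop :=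
  ∀ z x y : A2, z ^ 2 = x * y + dA * x ^ 2 + eA * y ^ 2 → z = 0 ∧ x = 0 ∧ y = 0

/-- ANI2: the same over `F_2[e][d][u_1, ..., u_n]`; the same for `x² + xy + y²`. -/
def claimANI2 : Prop :=
  ∀ (n : ℕ), (∀ z x y : MvPolynomial (Fin n) A2,
    z ^ 2 = x * y + C dA * x ^ 2 + C eA * y ^ 2 → z = 0 ∧ x = 0 ∧ y = 0) ∧
    (∀ x y : MvPolynomial (Fin n) A2, x ^ 2 + x * y + y ^ 2 = 0 → x = 0 ∧ y = 0)

/-- PRIM: points over the fraction field of `F_2[e][d][u]` have coordinates with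
`α(x) = β(y)`. -/
def claimPRIM : Prop :=
  ∀ (n : ℕ) (x y : Fin 3 → MvPolynomial (Fin n) A2), x ≠ 0 → y ≠ 0 →
    (∀ i j, al (C dA) (C eA) x i * be y j = al (C dA) (C eA) x j * be y i) →
      ∃ (x' y' : Fin 3 → MvPolynomial (Fin n) A2) (a b : MvPolynomial (Fin n) A2),
        a ≠ 0 ∧ b ≠ 0 ∧ x = a • x' ∧ y = b • y' ∧ al (C dA) (C eA) x' = be y'

/-- PTS: the points over `F_2[e][d][u]`. -/
def claimPTS : Prop :=
  ∀ (n : ℕ) (x y : Fin 3 → MvPolynomial (Fin n) A2), x ≠ 0 → y ≠ 0 →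
    (∀ i j, al (C dA) (C eA) x i * be y j = al (C dA) (C eA) x j * be y i) →
      ∃ a b : MvPolynomial (Fin n) A2, a ≠ 0 ∧ b ≠ 0 ∧ x = ![a, 0, 0] ∧
        (y = ![b, 0, 0] ∨ y = ![b, b, b])

/-- The two rational points. -/
def P0 (R : Type) [CommRing R] : Fin 3 × Fin 3 → R := tens ![1, 0, 0] ![1, 0, 0]
/-- The two rational points. -/
def P1 (R : Type) [CommRing R] : Fin 3 × Fin 3 → R := tens ![1, 0, 0] ![1, 1, 1]

/-- RAT: every rational map from projective `n`-space to `X` over `k` is constant with value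
one of the two rational points. -/
def claimRAT : Prop :=
  ∀ (n : ℕ) (φ : Fin 3 × Fin 3 → MvPolynomial (Fin n) kk), IsPoint (Feq dk ek) φ →
    ∃ c : MvPolynomial (Fin n) kk, c ≠ 0 ∧ (φ = c • P0 _ ∨ φ = c • P1 _)

end Pool.Agent.Work.MP_d5a5f5_ag
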